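import Pool.Agent.P.MP_54b694_lc.Defs

/-! The notions of the problem, read inside a structure `(M, E)` for the language of set theory. -/

namespace Pool.Agent.P.MP_ed8104_gt.I

open Pool.Agent.P.MP_54b694_lc

universe u

variable {M : Type u} (E : M → M → Prop)

/-- `A ⊆ B`. -/
def Sub (A B : M) : Prop := ∀ x, E x A → E x B

/-- `w` is the least inductive set `ω`. -/
def IsOmega (w : M) : Prop := IsInductive E w ∧ ∀ w', IsInductive E w' → Sub E w w'

/-- `A` is finite: it injects into a member of `ω`. -/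
def IsFin (w A : M) : Prop := ∃ n, E n w ∧ CardLE E A n

/-- `s` is a function with domain `ω`. -/
def IsSeq (w s : M) : Prop :=
  (∀ p, E p s → ∃ a b, E a w ∧ IsOPair E p a b) ∧ (∀ a, E a w → ∃ b, Rel E s a b) ∧
    ∀ a b b', Rel E s a b → Rel E s a b' → b = b'

/-- `f` is a function from `ω` to `ω`. -/
def IsFn (w f : M) : Prop := IsSeq E w f ∧ ∀ a b, Rel E f a b → E b w

/-- `D ⊆ ω^ω` is dominating: each `g` has `g(n) ≤ f(n)` for all `n > m`, for some `f ∈ D`, `m`. -/
def Dominating (w D : M) : Prop :=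
  (∀ f, E f D → IsFn E w f) ∧ ∀ g, IsFn E w g → ∃ f, E f D ∧ ∃ m, E m w ∧
    ∀ n a b, E m n → Rel E g n a → Rel E f n b → E a b ∨ a = b

/-- `|X| < 𝔡`: `X` is smaller than every dominating family. -/
def LtDom (w X : M) : Prop := ∀ D, Dominating E w D → CardLT E X D

/-- `T` is a topology on `X`. -/
def IsTop (X T : M) : Prop :=
  (∀ U, E U T → Sub E U X) ∧ E X T ∧
  (∀ U V W, E U T → E V T → (∀ x, E x W ↔ E x U ∧ E x V) → E W T) ∧
  ∀ A W, Sub E A T → (∀ x, E x W ↔ ∃ U, E U A ∧ E x U) → E W T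

/-- `C` is an open cover of `(X, T)`. -/
def Cover (X T C : M) : Prop := Sub E C T ∧ ∀ x, E x X → ∃ U, E U C ∧ E x U

/-- The points with property `P` are dense: each nonempty open set has such a point. -/
def DenseP (T : M) (P : M → Prop) : Prop := ∀ W, E W T → (∃ x, E x W) → ∃ x, E x W ∧ P x

/-- Every open cover has a countable subfamily with dense union. -/
def WLindelof (X T : M) : Prop :=
  ∀ C, Cover E X T C → ∃ V, Sub E V C ∧ IsCountable E V ∧ DenseP E T fun x => ∃ U, E U V ∧ E x U

/-- For every sequence `s` of open covers there is a sequence `t` of finite `t(n) ⊆ s(n)` with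
property `P`. -/
def Select (w X T : M) (P : M → Prop) : Prop :=
  ∀ s, IsSeq E w s → (∀ n C, Rel E s n C → Cover E X T C) →
    ∃ t, IsSeq E w t ∧ (∀ n C V, Rel E s n C → Rel E t n V → Sub E V C ∧ IsFin E w V) ∧ P t

/-- `x ∈ ⋃ t(n)`. -/
def InSel (t n x : M) : Prop := ∃ V U, Rel E t n V ∧ E U V ∧ E x U

/-- `P n` holds for infinitely many `n ∈ ω`. -/
def InfOften (w : M) (P : M → Prop) : Prop := ∀ m, E m w → ∃ n, E n w ∧ E m n ∧ P n

/-- Weakly Menger. -/
def WMenger (w X T : M) : Prop :=
  Select E w X T fun t => DenseP E T fun x => ∃ n, InSel E t n x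

/-- Weakly Scheepers in the sense of Sakai. -/
def WSakai (w X T : M) : Prop :=
  Select E w X T fun t => ∀ F, IsFin E w F → (∀ U, E U F → E U T ∧ ∃ x, E x U) →
    InfOften E w fun n => ∀ U, E U F → ∃ x, E x U ∧ InSel E t n x

/-- Weakly Scheepers in the sense of Kočinac. -/
def WKocinac (w X T : M) : Prop :=
  Select E w X T fun t => ∃ Y, Sub E Y X ∧ DenseP E T (fun x => E x Y) ∧
    ∀ F, Sub E F Y → IsFin E w F → InfOften E w fun n => ∀ x, E x F → InSel E t n x

/-- Every weakly Lindelöf space of size less than `𝔡` has the property `P`. -/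
def Holds (P : M → M → M → Prop) : Prop :=
  ∀ w X T, IsOmega E w → IsTop E X T → WLindelof E X T → LtDom E w X → P w X T

end Pool.Agent.P.MP_ed8104_gt.I
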