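import Mathlib
import Pool.Agent.P.MP_54b694_lc.Cohen
import Pool.Agent.P.MP_ed8104_gt.I.Defs

/-! General facts on the quotient models: `ω`, finite sets, covers by names, sequences. -/

namespace Pool.Agent.P.MP_ed8104_gt.I

open Pool.Agent.P.MP_54b694_lc Name Cardinal

variable {B : Type} [CompleteBooleanAlgebra B]

theorem isOmega_omega (U : Ultra B) : IsOmega (mem U) (mk U omegaN) :=
  ⟨omega_inductive U, fun w hw => omega_least U w hw⟩

theorem IsOmega.eq {U : Ultra B} {w : Mod U} (h : IsOmega (mem U) w) : w = mk U omegaN :=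
  mod_ext U _ _ (fun x => ⟨h.2 _ (omega_inductive U) x, omega_least U w h.1 x⟩)

theorem natN_mem_iff (U : Ultra B) {m n : ℕ} :
    mem U (mk U (natN m)) (mk U (natN n)) ↔ m < n := by
  refine ⟨fun h => ?_, natN_mem U⟩
  induction n with
  | zero => exact absurd h (not_mem_zero U _)
  | succ n ih =>
    rcases (mem_succN U _ _).mp h with h | h
    · exact (ih h).trans (Nat.lt_succ_self n)
    · rw [natN_inj U h]; exact Nat.lt_succ_self n

theorem rep_sub (A C : Name B) : Rep (fun U => Sub (mem U) (mk U A) (mk U C)) :=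
  Rep.all (fun x => (Rep.mem x A).imp (Rep.mem x C))

theorem rep_fin (w A : Name B) : Rep (fun U => IsFin (mem U) (mk U w) (mk U A)) :=
  Rep.ex (fun n => (Rep.mem n w).and (rep_cardLE A n))

theorem rep_seq (w s : Name B) : Rep (fun U => IsSeq (mem U) (mk U w) (mk U s)) :=
  (Rep.all (fun p => (Rep.mem p s).imp (Rep.ex (fun a => Rep.ex (fun b =>
    (Rep.mem a w).and (rep_opair p a b)))))).and
  ((Rep.all (fun a => (Rep.mem a w).imp (Rep.ex (fun b => rep_rel s a b)))).and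
  (Rep.all (fun a => Rep.all (fun b => Rep.all (fun b' =>
    (rep_rel s a b).imp ((rep_rel s a b').imp (Rep.eq b b')))))))

theorem rep_fn (w s : Name B) : Rep (fun U => IsFn (mem U) (mk U w) (mk U s)) :=
  (rep_seq w s).and (Rep.all (fun a => Rep.all (fun b => (rep_rel s a b).imp (Rep.mem b w))))

theorem rep_bound (w g f : Name B) : Rep (fun U => ∃ m, mem U m (mk U w) ∧
    ∀ n a b, mem U m n → Rel (mem U) (mk U g) n a → Rel (mem U) (mk U f) n b →
      mem U a b ∨ a = b) :=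
  Rep.ex (fun m => (Rep.mem m w).and (Rep.all (fun n => Rep.all (fun a => Rep.all (fun b =>
    (Rep.mem m n).imp ((rep_rel g n a).imp ((rep_rel f n b).imp
      ((Rep.mem a b).or (Rep.eq a b)))))))))

theorem rep_dom (w D : Name B) : Rep (fun U => Dominating (mem U) (mk U w) (mk U D)) :=
  (Rep.all (fun f => (Rep.mem f D).imp (rep_fn w f))).and
  (Rep.all (fun g => (rep_fn w g).imp (Rep.ex (fun f => (Rep.mem f D).and (rep_bound w g f)))))

theorem rep_cover (X T C : Name B) : Rep (fun U => Cover (mem U) (mk U X) (mk U T) (mk U C)) :=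
  (rep_sub C T).and (Rep.all (fun x => (Rep.mem x X).imp
    (Rep.ex (fun V => (Rep.mem V C).and (Rep.mem x V)))))

theorem rep_insel (t n x : Name B) : Rep (fun U => InSel (mem U) (mk U t) (mk U n) (mk U x)) :=
  Rep.ex (fun V => Rep.ex (fun W => (rep_rel t n V).and ((Rep.mem W V).and (Rep.mem x W))))

/-- The Boolean value of a representable property forces it. -/
theorem value {P : Ultra B → Prop} (h : Rep P) {U : Ultra B} (hU : P U) :
    ∃ q, U.s q ∧ Forces q P := by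
  obtain ⟨b, hb⟩ := h
  exact ⟨b, (hb U).mpr hU, fun V hV => (hb V).mp hV⟩

theorem covered_elim {p : B} {Y : Name B} {I : Type} {y : I → Name B} (h : Covered p Y y)
    {P : ∀ U : Ultra B, Mod U → Prop} (hP : ∀ x, Rep (fun U => P U (mk U x)))
    (H : ∀ i U, U.s p → mem U (mk U (y i)) (mk U Y) → P U (mk U (y i))) :
    Forces p (fun U => ∀ x, mem U x (mk U Y) → P U x) := by
  intro U hU x hx
  obtain ⟨x, rfl⟩ := mk_surj x
  refine Rep.imp_of_dense ((Rep.of_s p).and (Rep.mem x Y)) (hP x) (fun q hq hF => ?_) U ⟨hU, hx⟩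
  obtain ⟨i, r, g1, g2, g3⟩ := h x q hq (le_of_ultra (fun V hV => (hF V hV).1))
    (fun V hV => (hF V hV).2)
  refine ⟨r, g1, g2, fun V hV => ?_⟩
  have k := hF V (V.mono g2 hV)
  show P V (mk V x)
  beta_reduce at k
  rw [g3 V hV] at k ⊢
  exact H i V k.1 k.2

theorem covered_omega (p : B) : Covered p omegaN natN := covered_mk p natN _

theorem covered_of_cardLE {p : B} {A Z : Name B} {I : Type} {z : I → Name B}
    (h : Forces p (fun U => CardLE (mem U) (mk U A) (mk U Z))) (hz : Covered p Z z) :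
    ∃ y : I → Name B, Covered p A y := by
  obtain ⟨f, hf⟩ := Forces.ex (P := fun U f => IsInjection (mem U) f (mk U A) (mk U Z))
    (fun f => rep_inj f A Z) h
  choose y hy using fun i : I => Rep.witness
    (P := fun U a => Rel (mem U) (mk U f) a (mk U (z i))) (fun a => rep_rel f a _)
  refine ⟨y, fun u q hq hqp hu => ?_⟩
  obtain ⟨b, hb⟩ := Forces.ex (P := fun U b => Rel (mem U) (mk U f) (mk U u) b)
    (fun b => rep_rel f _ b) (p := q) (fun V hV => (hf V (V.mono hqp hV)).2.1 _ (hu V hV))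
  obtain ⟨n, r, g1, g2, g3⟩ := hz b q hq hqp
    (fun V hV => (hf V (V.mono hqp hV)).mem_right (hb V hV))
  refine ⟨n, r, g1, g2, fun V hV => ?_⟩
  have k1 := hb V (V.mono g2 hV)
  beta_reduce at k1
  rw [g3 V hV] at k1
  exact (hf V (V.mono (g2.trans hqp) hV)).2.2.2 _ _ _ k1 (hy n V ⟨_, k1⟩)

theorem natN_sub (U : Ultra B) (n : ℕ) : Sub (mem U) (mk U (natN n)) (mk U omegaN) := by
  induction n with
  | zero => exact fun x hx => absurd hx (not_mem_zero U _)
  | succ n ih =>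
    intro x hx
    rcases (mem_succN U _ _).mp hx with h | h
    · exact ih x h
    · rw [h]; exact natN_mem_omega U n

theorem covered_nat (p : B) (n : ℕ) : Covered p (natN n) (fun i : Fin n => natN i) := by
  intro u q hq hqp hu
  obtain ⟨m, r, g1, g2, g3⟩ := covered_omega p u q hq hqp (fun V hV => natN_sub V n _ (hu V hV))
  obtain ⟨V, hV, hV'⟩ := g3.exists g1
  have k := hu V (V.mono g2 hV)
  beta_reduce at k
  rw [hV', natN_mem_iff] at k
  exact ⟨⟨m, k⟩, r, g1, g2, g3⟩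

theorem fin_cover {q : B} (hq : q ≠ ⊥) {A : Name B}
    (h : Forces q (fun U => IsFin (mem U) (mk U omegaN) (mk U A))) :
    ∃ r, r ≠ ⊥ ∧ r ≤ q ∧ ∃ (n : ℕ) (y : Fin n → Name B), Covered r A y := by
  obtain ⟨N, hN⟩ := Forces.ex
    (P := fun U n => mem U n (mk U omegaN) ∧ CardLE (mem U) (mk U A) n)
    (fun n => (Rep.mem n _).and (rep_cardLE A n)) h
  obtain ⟨n, r, g1, g2, g3⟩ := covered_omega q N q hq le_rfl (fun V hV => (hN V hV).1)
  refine ⟨r, g1, g2, n, covered_of_cardLE (fun V hV => ?_) (covered_nat r n)⟩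
  beta_reduce
  rw [← g3 V hV]
  exact (hN V (V.mono g2 hV)).2

theorem forces_fin {p : B} {A : Name B} {I : Type} [Finite I] {y : I → Name B}
    (h : Covered p A y) : Forces p (fun U => IsFin (mem U) (mk U omegaN) (mk U A)) := by
  obtain ⟨n, ⟨e⟩⟩ := Finite.exists_equiv_fin I
  intro U hU
  exact ⟨_, natN_mem_omega U n, forces_cardLE (z := fun i => natN (e i)) h
    (fun i V _ => natN_mem V (e i).2)
    (fun i j V _ k => e.injective (Fin.ext (natN_inj V k))) U hU⟩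

theorem refine_fin {ι : Type} (s : Finset ι) (Φ : ι → B → Prop) {q : B} (hq : q ≠ ⊥)
    (hd : ∀ i r r', r' ≤ r → Φ i r → Φ i r')
    (H : ∀ i ∈ s, ∀ r, r ≠ ⊥ → r ≤ q → ∃ r', r' ≠ ⊥ ∧ r' ≤ r ∧ Φ i r') :
    ∃ r, r ≠ ⊥ ∧ r ≤ q ∧ ∀ i ∈ s, Φ i r := by
  classical
  induction s using Finset.induction_on with
  | empty => exact ⟨q, hq, le_rfl, by simp⟩
  | insert a s _ ih =>
    obtain ⟨r, g1, g2, g3⟩ := ih (fun i hi => H i (Finset.mem_insert_of_mem hi))
    obtain ⟨r', k1, k2, k3⟩ := H a (Finset.mem_insert_self _ _) r g1 g2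
    refine ⟨r', k1, k2.trans g2, fun i hi => ?_⟩
    rcases Finset.mem_insert.mp hi with rfl | hi
    · exact k3
    · exact hd i r r' k2 (g3 i hi)

theorem finite_cover {q : B} (hq : q ≠ ⊥) {F : Name B} {I : Type} {x : I → Name B}
    (hc : Covered q F x) (h : Forces q (fun U => IsFin (mem U) (mk U omegaN) (mk U F))) :
    ∃ r, r ≠ ⊥ ∧ r ≤ q ∧ ∃ T : Finset I, Covered r F (fun i : T => x i) := by
  classical
  obtain ⟨r0, g1, g2, n, y, hy⟩ := fin_cover hq h
  obtain ⟨r, k1, k2, k3⟩ := refine_fin Finset.univ (fun (i : Fin n) r => ∃ T : Finset I,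
      r ≤ (bmem (y i) F)ᶜ ∨ ∃ j ∈ T, Forces r (fun U => mk U (y i) = mk U (x j))) g1
    (fun i r r' h1 ⟨T, h2⟩ => ⟨T, h2.imp h1.trans (fun ⟨j, h3, h4⟩ => ⟨j, h3, h4.mono h1⟩)⟩) (by
      intro i _ r r1 r2
      by_cases hb : r ≤ (bmem (y i) F)ᶜ
      · exact ⟨r, r1, le_rfl, ∅, Or.inl hb⟩
      · obtain ⟨r', s1, s2, s3⟩ := exists_of_not_le hb
        rw [compl_compl] at s3
        obtain ⟨j, r'', t1, t2, t3⟩ := hc (y i) r' s1 (s2.trans (r2.trans g2))
          (fun V hV => V.mono s3 hV)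
        exact ⟨r'', t1, t2.trans s2, {j}, Or.inr ⟨j, Finset.mem_singleton_self j, t3⟩⟩)
  choose T hT using fun i => k3 i (Finset.mem_univ i)
  refine ⟨r, k1, k2.trans g2, Finset.univ.biUnion T, fun u p p1 p2 hu => ?_⟩
  obtain ⟨i, r', s1, s2, s3⟩ := hy u p p1 (p2.trans k2) hu
  rcases hT i with h1 | ⟨j, h1, h2⟩
  · obtain ⟨V, hV, hV'⟩ := s3.exists s1
    have k := hu V (V.mono s2 hV)
    beta_reduce at k
    rw [hV'] at k
    exact absurd k (V.compl_iff.mp (V.mono ((s2.trans p2).trans h1) hV))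
  · exact ⟨⟨j, Finset.mem_biUnion.mpr ⟨i, Finset.mem_univ i, h1⟩⟩, r', s1, s2,
      fun V hV => (s3 V hV).trans (h2 V (V.mono (s2.trans p2) hV))⟩

theorem ccc_choice (hc : CCC B) {ι : Type} (D : B → ι → Prop)
    (hd : ∀ r r' i, r' ≤ r → D r i → D r' i) : ∃ I : Set ι, I.Countable ∧
      ∀ r i, r ≠ ⊥ → D r i → ∃ r', r' ≠ ⊥ ∧ r' ≤ r ∧ ∃ i' ∈ I, D r' i' := by
  obtain ⟨A, h1, h2, h3⟩ := exists_max_pairwise (fun a : B => a ≠ ⊥ ∧ ∃ i, D a i)
    (fun a a' => a ⊓ a' = ⊥) (fun a b h => by rwa [inf_comm])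
  have hA : Countable A := hc A (fun a => a) (fun a => (h1 a a.2).1)
    (fun a a' h => h2 a.2 a'.2 (fun h' => h (Subtype.ext h')))
  choose j hj using fun a : A => (h1 a a.2).2
  refine ⟨Set.range j, Set.countable_range j, fun r i hr hD => ?_⟩
  rcases h3 r ⟨hr, i, hD⟩ with h | ⟨a, ha, h⟩
  · exact ⟨r, hr, le_rfl, _, ⟨⟨r, h⟩, rfl⟩, hj ⟨r, h⟩⟩
  · exact ⟨_, h, inf_le_left, _, ⟨⟨a, ha⟩, rfl⟩, hd _ _ _ inf_le_right (hj ⟨a, ha⟩)⟩

/-- The first uncountable ordinal as a type. -/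
abbrev Om : Type := (ℵ₁ : Cardinal.{0}).ord.ToType

theorem mk_Om : #Om = ℵ₁ := Cardinal.mk_ord_toType _

theorem countable_Iio (a : Om) : Countable (Set.Iio a) := by
  have : (Set.Iio a).Countable := by
    rw [Cardinal.countable_iff_lt_aleph_one]
    exact Cardinal.mk_Iio_toType_ord_lt a
  exact this

instance : Uncountable Om := by
  rw [← Cardinal.aleph0_lt_mk_iff, mk_Om]
  exact Cardinal.aleph0_lt_aleph_one

theorem exists_seq_of_uncountable {p : B} {X : Name B}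
    (h : Forces p (fun U => ¬ IsCountable (mem U) (mk U X))) : ∃ x : Om → Name B,
      (∀ a, Forces p (fun U => mem U (mk U (x a)) (mk U X))) ∧
      ∀ a b, Forces p (fun U => mk U (x a) = mk U (x b) → a = b) := by
  choose wit hwit using fun N : Name B => Rep.witness
    (P := fun U a => mem U a (mk U X) ∧ ¬ mem U a (mk U N))
    (fun a => (Rep.mem a X).and (Rep.mem a N).not)
  let x : Om → Name B := WellFounded.fix (wellFounded_lt (α := Om))
    (fun a ih => wit (Name.mk (Set.Iio a) (fun b => ih b b.2) (fun _ => ⊤)))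
  have hx : ∀ a, x a = wit (Name.mk (Set.Iio a) (fun b => x b) (fun _ => ⊤)) :=
    fun a => WellFounded.fix_eq _ _ a
  have key : ∀ a (U : Ultra B), U.s p → mem U (mk U (x a)) (mk U X) ∧
      ¬ mem U (mk U (x a)) (mk U (Name.mk (Set.Iio a) (fun b => x b) (fun _ => ⊤))) := by
    intro a U hU
    rw [hx a]
    refine hwit _ U ?_
    by_contra hcon
    push Not at hcon
    obtain ⟨q, q1, q2⟩ := value (rep_sub X (Name.mk (Set.Iio a) (fun b => x b) (fun _ => ⊤))) hcon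
    have := countable_Iio a
    exact h U hU (forces_countable ((covered_mk q _ _).subset q2) U q1)
  refine ⟨x, fun a U hU => (key a U hU).1, fun a b U hU hab => ?_⟩
  by_contra hne
  rcases lt_or_gt_of_ne hne with h1 | h1
  · apply (key b U hU).2
    rw [← hab]
    exact mem_mk_of (A := fun c : Set.Iio b => x c) ⟨a, h1⟩ U.top
  · apply (key a U hU).2
    rw [hab]
    exact mem_mk_of (A := fun c : Set.Iio a => x c) ⟨b, h1⟩ U.top

/-- The sequence `n ↦ y n`. -/
def seqN (y : ℕ → Name B) : Name B := Name.mk ℕ (fun n => opair (natN n) (y n)) (fun _ => ⊤)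

theorem rel_seqN (U : Ultra B) (y : ℕ → Name B) (n : ℕ) :
    Rel (mem U) (mk U (seqN y)) (mk U (natN n)) (mk U (y n)) :=
  rel_mk_of (y := natN) n U.top

theorem of_rel_seqN {y : ℕ → Name B} {P : ∀ U : Ultra B, Mod U → Mod U → Prop}
    (hP : ∀ x x', Rep (fun U => P U (mk U x) (mk U x')))
    (H : ∀ n U, P U (mk U (natN n)) (mk U (y n))) (U : Ultra B) (x x' : Mod U)
    (h : Rel (mem U) (mk U (seqN y)) x x') : P U x x' :=
  of_rel_mk hP (fun n U _ => H n U) U x x' h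

theorem seqN_val {U : Ultra B} {y : ℕ → Name B} {n : ℕ} {b : Mod U}
    (h : Rel (mem U) (mk U (seqN y)) (mk U (natN n)) b) : b = mk U (y n) := by
  refine of_rel_seqN (P := fun V a c => a = mk V (natN n) → c = mk V (y n))
    (fun a c => (Rep.eq a _).imp (Rep.eq c _)) ?_ U _ _ h rfl
  intro m V k
  rw [natN_inj V k]

theorem isSeq_seqN (U : Ultra B) (y : ℕ → Name B) :
    IsSeq (mem U) (mk U omegaN) (mk U (seqN y)) := by
  refine ⟨?_, ?_, ?_⟩
  · refine of_mem_mk (P := fun U p => ∃ a b, mem U a (mk U omegaN) ∧ IsOPair (mem U) p a b)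
      (fun p => Rep.ex (fun a => Rep.ex (fun b => (Rep.mem a _).and (rep_opair p a b)))) ?_ U
    exact fun n V _ => ⟨_, _, natN_mem_omega V n, isOPair_opair V _ _⟩
  · refine of_mem_mk (P := fun U a => ∃ b, Rel (mem U) (mk U (seqN y)) a b)
      (fun a => Rep.ex (fun b => rep_rel _ a b)) ?_ U
    exact fun n V _ => ⟨_, rel_seqN V y n⟩
  · intro a b b' h1 h2
    obtain ⟨b', rfl⟩ := mk_surj b'
    refine of_rel_seqN (P := fun V a c => Rel (mem V) (mk V (seqN y)) a (mk V b') → c = mk V b')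
      (fun a c => (rep_rel _ a b').imp (Rep.eq c _)) ?_ U _ _ h1 h2
    exact fun n V k => (seqN_val k).symm

theorem isFn_seqN (U : Ultra B) {y : ℕ → Name B}
    (h : ∀ n (V : Ultra B), mem V (mk V (y n)) (mk V omegaN)) :
    IsFn (mem U) (mk U omegaN) (mk U (seqN y)) :=
  ⟨isSeq_seqN U y, of_rel_seqN (P := fun V _ c => mem V c (mk V omegaN))
    (fun _ c => Rep.mem c _) h U⟩

/-- A name for a natural number with prescribed values. -/
theorem exists_nat_name (b : ℕ → B) (hd : ∀ i j, i ≠ j → b i ⊓ b j = ⊥)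
    (hs : ∀ q, q ≠ ⊥ → ∃ i, q ⊓ b i ≠ ⊥) : ∃ y : Name B,
      (∀ V : Ultra B, mem V (mk V y) (mk V omegaN)) ∧
      ∀ i, Forces (b i) (fun V => mk V y = mk V (natN i)) := by
  obtain ⟨y, hy⟩ := exists_mix b natN hd
  refine ⟨y, fun V => V.mono (a := ⊤) (le_of_dense (fun q hq _ => ?_)) V.top,
    fun i V hV => mk_eq.mpr (V.mono (hy i) hV)⟩
  obtain ⟨i, hi⟩ := hs q hq
  exact ⟨_, hi, inf_le_left, le_bmem_mk (A := natN) i le_top (inf_le_right.trans (hy i))⟩

theorem IsSeq.mem_left {U : Ultra B} {w s a b : Mod U} (h : IsSeq (mem U) w s)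
    (hr : Rel (mem U) s a b) : mem U a w := by
  obtain ⟨p, h1, h2⟩ := hr
  obtain ⟨a', b', g2, g3⟩ := h.1 p h1
  rwa [(IsOPair.inj (mod_pair U) h2 g3).1]

/-- The values of a sequence. -/
theorem exists_values (s : Name B) : ∃ C : ℕ → Name B, ∀ n (U : Ultra B),
    IsSeq (mem U) (mk U omegaN) (mk U s) → Rel (mem U) (mk U s) (mk U (natN n)) (mk U (C n)) := by
  choose C hC using fun n : ℕ => Rep.witness
    (P := fun U b => Rel (mem U) (mk U s) (mk U (natN n)) b) (fun b => rep_rel s _ b)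
  exact ⟨C, fun n U h => hC n U (h.2.1 _ (natN_mem_omega U n))⟩

theorem fin_choice (U : Ultra B) (F Y : Mod U) (h1 : IsFin (mem U) (mk U omegaN) F)
    (h2 : ∀ W, mem U W F → ∃ x, mem U x W ∧ mem U x Y) : ∃ G, Sub (mem U) G Y ∧
      IsFin (mem U) (mk U omegaN) G ∧ ∀ W, mem U W F → ∃ x, mem U x W ∧ mem U x G := by
  obtain ⟨F, rfl⟩ := mk_surj F
  obtain ⟨Y, rfl⟩ := mk_surj Y
  refine Rep.imp_of_dense (P := fun U => IsFin (mem U) (mk U omegaN) (mk U F) ∧
      ∀ W, mem U W (mk U F) → ∃ x, mem U x W ∧ mem U x (mk U Y))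
    (Q := fun U => ∃ G, Sub (mem U) G (mk U Y) ∧ IsFin (mem U) (mk U omegaN) G ∧
      ∀ W, mem U W (mk U F) → ∃ x, mem U x W ∧ mem U x G)
    ((rep_fin _ F).and (Rep.all (fun W => (Rep.mem W F).imp
      (Rep.ex (fun x => (Rep.mem x W).and (Rep.mem x Y))))))
    (Rep.ex (fun G => (rep_sub G Y).and ((rep_fin _ G).and (Rep.all (fun W => (Rep.mem W F).imp
      (Rep.ex (fun x => (Rep.mem x W).and (Rep.mem x G)))))))) ?_ U ⟨h1, h2⟩
  intro q hq hF
  obtain ⟨r, g1, g2, n, A, hA⟩ := fin_cover hq (fun V hV => (hF V hV).1)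
  choose y hy using fun i => Rep.witness
    (P := fun U x => mem U x (mk U (A i)) ∧ mem U x (mk U Y))
    (fun x => (Rep.mem x _).and (Rep.mem x Y))
  refine ⟨r, g1, g2, fun V hV => ⟨mk V (Name.mk (Fin n) y (fun i => bmem (A i) F)), ?_,
    forces_fin (covered_mk ⊤ _ _) V V.top, ?_⟩⟩
  · intro x hx
    refine of_mem_mk (P := fun W x => W.s q → mem W x (mk W Y))
      (fun x => (Rep.of_s q).imp (Rep.mem x Y)) ?_ V x hx (V.mono g2 hV)
    exact fun i W k1 k2 => (hy i W ((hF W k2).2 _ k1)).2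
  · refine covered_elim hA (P := fun W a => ∃ x, mem W x a ∧
      mem W x (mk W (Name.mk (Fin n) y (fun i => bmem (A i) F))))
      (fun a => Rep.ex (fun x => (Rep.mem x a).and (Rep.mem x _))) ?_ V hV
    exact fun i W k1 k2 => ⟨_, (hy i W ((hF W (W.mono g2 k1)).2 _ k2)).1, mem_mk_of i k2⟩

theorem sakai_of_kocinac {U : Ultra B} {X T : Mod U} (h : WKocinac (mem U) (mk U omegaN) X T) :
    WSakai (mem U) (mk U omegaN) X T := by
  intro s h1 h2
  obtain ⟨t, g1, g2, Y, -, g4, g5⟩ := h s h1 h2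
  refine ⟨t, g1, g2, fun F k1 k2 m hm => ?_⟩
  obtain ⟨G, s1, s2, s3⟩ := fin_choice U F Y k1 (fun W hW => g4 W (k2 W hW).1 (k2 W hW).2)
  obtain ⟨n, t1, t2, t3⟩ := g5 G s1 s2 m hm
  refine ⟨n, t1, t2, fun W hW => ?_⟩
  obtain ⟨x, x1, x2⟩ := s3 W hW
  exact ⟨x, x1, t3 x x2⟩

theorem menger_of_sakai {U : Ultra B} {X T : Mod U} (h : WSakai (mem U) (mk U omegaN) X T) :
    WMenger (mem U) (mk U omegaN) X T := by
  intro s h1 h2
  obtain ⟨t, g1, g2, g3⟩ := h s h1 h2
  refine ⟨t, g1, g2, fun W k1 k2 => ?_⟩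
  obtain ⟨W, rfl⟩ := mk_surj W
  obtain ⟨n, -, -, t3⟩ := g3 (mk U (upair W W)) (forces_fin (covered_mk ⊤ _ _) U U.top)
    (fun A hA => by
      rw [mem_upair, or_self] at hA
      rw [hA]
      exact ⟨k1, k2⟩) _ (natN_mem_omega U 0)
  obtain ⟨x, x1, x2⟩ := t3 (mk U W) ((mem_upair _ _ _ _).mpr (Or.inl rfl))
  exact ⟨x, x1, n, x2⟩

end Pool.Agent.P.MP_ed8104_gt.I
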