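import Mathlib
import Pool.Agent.P.MP_ed8104_gt.Space
import Pool.Agent.P.MP_ed8104_gt.I.Basic

/-! The Boolean-valued Pixley-Roy type space: the combinatorial core. -/

namespace Pool.Agent.P.MP_ed8104_gt.I

open Pool.Agent.P.MP_54b694_lc

variable {B Y : Type} [CompleteBooleanAlgebra B] (e : Y → ℕ → Bool)

/-- The first `n` bits of the point `y`. -/
def key (n : ℕ) (y : Y) : Finset ℕ := (Finset.range n).filter (fun k => e y k = true)

theorem key_eq_iff {n : ℕ} {y z : Y} : key e n y = key e n z ↔ ∀ k < n, e y k = e z k := by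
  constructor
  · intro h k hk
    have := Finset.ext_iff.mp h k
    simp only [key, Finset.mem_filter, Finset.mem_range, hk, true_and] at this
    exact Bool.eq_iff_iff.mpr this
  · intro h
    exact Finset.filter_congr (fun k hk => by rw [h k (Finset.mem_range.mp hk)])

theorem key_mono {m n : ℕ} (hmn : m ≤ n) {y z : Y} (h : key e n y = key e n z) :
    key e m y = key e m z :=
  (key_eq_iff e).mpr (fun k hk => (key_eq_iff e).mp h k (hk.trans_le hmn))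

/-- `y` is within distance `2^{-n}` of `H`. -/
def Near (n : ℕ) (H : Finset Y) (y : Y) : Prop := ∃ z ∈ H, key e n y = key e n z

theorem Near.mono {m n : ℕ} (hmn : m ≤ n) {H : Finset Y} {y : Y} (h : Near e n H y) :
    Near e m H y := h.imp (fun _ k => ⟨k.1, key_mono e hmn k.2⟩)

/-- `q` forces that `w` is an open set of points. -/
def OpenAt (q : B) (w : Y → B) : Prop := ∀ y r, r ≠ ⊥ → r ≤ q → r ≤ w y →
  ∃ m r', r' ≠ ⊥ ∧ r' ≤ r ∧ ∀ z, key e m z = key e m y → r' ≤ w z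

/-- `q` forces that `u` is a neighbourhood of `H`. -/
def Loc (q : B) (H : Finset Y) (u : Finset Y → B) : Prop :=
  ∃ (w : Y → B) (n : ℕ), {y | Near e n H y ∧ ¬ q ≤ w y}.Countable ∧ OpenAt e q w ∧
    ∀ K r, H ⊆ K → r ≤ q → (∀ y ∈ K, y ∉ H → r ≤ w y) → r ≤ u K

/-- `q` forces that `u` is open. -/
def Opn (q : B) (u : Finset Y → B) : Prop :=
  ∀ H r, r ≠ ⊥ → r ≤ q → r ≤ u H → ∃ r', r' ≠ ⊥ ∧ r' ≤ r ∧ Loc e r' H u

variable {e}

theorem OpenAt.mono {q q' : B} {w : Y → B} (h : OpenAt e q w) (hq : q' ≤ q) : OpenAt e q' w :=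
  fun y r h1 h2 h3 => h y r h1 (h2.trans hq) h3

theorem Loc.mono {q q' : B} {H : Finset Y} {u u' : Finset Y → B} (h : Loc e q H u) (hq : q' ≤ q)
    (hu : ∀ K r, r ≤ q' → r ≤ u K → r ≤ u' K) : Loc e q' H u' := by
  obtain ⟨w, n, h1, h2, h3⟩ := h
  refine ⟨w, n, h1.mono (fun y hy => ?_), h2.mono hq,
    fun K r k1 k2 k3 => hu K r k2 (h3 K r k1 (k2.trans hq) k3)⟩
  exact ⟨hy.1, fun k => hy.2 (hq.trans k)⟩

theorem Loc.inf {q : B} {H : Finset Y} {u u' : Finset Y → B} (h : Loc e q H u)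
    (h' : Loc e q H u') : Loc e q H (fun K => u K ⊓ u' K) := by
  obtain ⟨w, n, h1, h2, h3⟩ := h
  obtain ⟨w', n', k1, k2, k3⟩ := h'
  refine ⟨fun y => w y ⊓ w' y, max n n', (h1.union k1).mono (fun y hy => ?_),
    fun y r g1 g2 g3 => ?_, fun K r g1 g2 g3 => le_inf
      (h3 K r g1 g2 (fun y a b => (g3 y a b).trans inf_le_left))
      (k3 K r g1 g2 (fun y a b => (g3 y a b).trans inf_le_right))⟩
  · by_cases h : q ≤ w y
    · exact Or.inr ⟨hy.1.mono e (le_max_right _ _), fun k => hy.2 (le_inf h k)⟩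
    · exact Or.inl ⟨hy.1.mono e (le_max_left _ _), h⟩
  · obtain ⟨m, r', s1, s2, s3⟩ := h2 y r g1 g2 (g3.trans inf_le_left)
    obtain ⟨m', r'', t1, t2, t3⟩ := k2 y r' s1 (s2.trans g2) (s2.trans (g3.trans inf_le_right))
    exact ⟨max m m', r'', t1, t2.trans s2, fun z hz => le_inf
      (t2.trans (s3 z (key_mono e (le_max_left _ _) hz))) (t3 z (key_mono e (le_max_right _ _) hz))⟩

theorem Opn.of_dense {q : B} {u : Finset Y → B}
    (h : ∀ r, r ≠ ⊥ → r ≤ q → ∃ r', r' ≠ ⊥ ∧ r' ≤ r ∧ Opn e r' u) : Opn e q u := by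
  intro H r h1 h2 h3
  obtain ⟨r', g1, g2, g3⟩ := h r h1 h2
  obtain ⟨r'', k1, k2, k3⟩ := g3 H r' g1 le_rfl (g2.trans h3)
  exact ⟨r'', k1, k2.trans g2, k3⟩

theorem Opn.congr {q q' : B} {u u' : Finset Y → B} (h : Opn e q u) (hq : q' ≤ q)
    (hu : ∀ K r, r ≤ q' → (r ≤ u K ↔ r ≤ u' K)) : Opn e q' u' := by
  intro H r h1 h2 h3
  obtain ⟨r', g1, g2, g3⟩ := h H r h1 (h2.trans hq) ((hu H r h2).mpr h3)
  exact ⟨r', g1, g2, g3.mono le_rfl (fun K s k1 k2 => (hu K s (k1.trans (g2.trans h2))).mp k2)⟩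

theorem opn_sSup (u : Finset Y → B) : Opn e (sSup {q | Opn e q u}) u := by
  refine Opn.of_dense (fun r h1 h2 => ?_)
  rw [sSup_eq_iSup'] at h2
  obtain ⟨i, r', g1, g2, g3⟩ := exists_of_le_iSup h1 h2
  exact ⟨r', g1, g2, Opn.congr i.2 g3 (fun _ _ _ => Iff.rfl)⟩

theorem wl_comb (hc : CCC B) (q : B) (u : Finset Y → Finset Y → B) (h1 : ∀ F, Opn e q (u F))
    (h2 : ∀ F, q ≤ u F F) : ∃ Z : Set Y, Z.Countable ∧ ∀ v G r, r ≠ ⊥ → r ≤ q → Loc e r G v →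
      ∃ (F K : Finset Y) (r' : B), (F : Set Y) ⊆ Z ∧ r' ≠ ⊥ ∧ r' ≤ r ∧ r' ≤ v K ∧ r' ≤ u F K := by
  classical
  let Good : Finset Y → ℕ → Set Y → B → Prop := fun F n C r =>
    ∀ K, F ⊆ K → (∀ y ∈ K, y ∉ F → Near e n F y ∧ y ∉ C) → r ≤ u F K
  choose I1 hI1 hI1' using fun F => ccc_choice hc
    (fun r (p : ℕ × Set Y) => p.2.Countable ∧ Good F p.1 p.2 r)
    (fun r r' p k1 k2 => ⟨k2.1, fun K a b => k1.trans (k2.2 K a b)⟩)
  let C : Finset Y → Set Y := fun F => ⋃ p ∈ I1 F ∩ {p | p.2.Countable}, p.2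
  have hC : ∀ F, (C F).Countable := fun F =>
    ((hI1 F).mono Set.inter_subset_left).biUnion (fun p hp => hp.2)
  have hgood : ∀ F r, r ≠ ⊥ → r ≤ q → ∃ r' n, r' ≠ ⊥ ∧ r' ≤ r ∧ ∀ N, n ≤ N → Good F N (C F) r' := by
    intro F r g1 g2
    obtain ⟨r1, k1, k2, w, n, k3, -, k5⟩ := h1 F F r g1 g2 (g2.trans (h2 F))
    obtain ⟨r2, s1, s2, p, s3, s4, s5⟩ := hI1' F r1 (n, _) k1 ⟨k3, fun K a b =>
      k5 K r1 a le_rfl (fun y c d => by
        by_contra hcon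
        exact (b y c d).2 ⟨(b y c d).1, hcon⟩)⟩
    exact ⟨r2, p.1, s1, s2.trans k2, fun N hN K a b => s5 K a (fun y c d =>
      ⟨(b y c d).1.mono e hN, fun k => (b y c d).2 (Set.mem_biUnion ⟨s3, s4⟩ k)⟩)⟩
  let P : Finset Y → ℕ → Finset (Finset ℕ) → B → Finset Y → Prop := fun G N T r F =>
    G ⊆ F ∧ F.image (key e N) = T ∧ Good F N (C F) r
  have hP : ∀ G N T r r' F, r' ≤ r → P G N T r F → P G N T r' F :=
    fun G N T r r' F k1 k2 => ⟨k2.1, k2.2.1, fun K a b => k1.trans (k2.2.2 K a b)⟩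
  choose I2 hI2 hI2' using fun (G : Finset Y) (c : ℕ × Finset (Finset ℕ) × ℕ × Finset (Finset ℕ)) =>
    ccc_choice hc (fun r F => P G c.1 c.2.1 r F ∧ ∀ y ∈ F, y ∉ G → key e c.2.2.1 y ∈ c.2.2.2)
      (fun r r' F k1 k2 => ⟨hP _ _ _ _ _ _ k1 k2.1, k2.2⟩)
  choose I3 hI3 hI3' using fun (G : Finset Y) (c : ℕ × Finset (Finset ℕ)) =>
    ccc_choice hc (fun r (Z : Set Y) => Z.Countable ∧
      ∀ F r', r' ≠ ⊥ → r' ≤ r → P G c.1 c.2 r' F → ∃ y ∈ F, y ∉ G ∧ y ∈ Z)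
      (fun r r' Z k1 k2 => ⟨k2.1, fun F s a b => k2.2 F s a (b.trans k1)⟩)
  obtain ⟨Z, hZc, hZ⟩ := exists_closed_countable (fun G => C G ∪
    ((⋃ c, ⋃ F ∈ I2 G c, (F : Set Y)) ∪ ⋃ c, ⋃ Z ∈ I3 G c ∩ {Z | Z.Countable}, Z)) (fun G =>
      (hC G).union ((Set.countable_iUnion (fun c =>
        (hI2 G c).biUnion (fun F _ => F.countable_toSet))).union (Set.countable_iUnion (fun c =>
        ((hI3 G c).mono Set.inter_subset_left).biUnion (fun Z hZ => hZ.2)))))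
  refine ⟨Z, hZc, fun v G r0 g1 g2 g3 => ?_⟩
  obtain ⟨r, n0, k1, k2, k3⟩ := hgood G r0 g1 g2
  obtain ⟨w, n, w1, w2, w3⟩ := g3.mono k2 (fun _ _ _ h => h)
  let N := max n0 n
  let G0 := G.filter (· ∈ Z)
  have hG0 : (G0 : Set Y) ⊆ Z := fun y hy => (Finset.mem_filter.mp hy).2
  have hPG : P G0 N (G.image (key e N)) r G :=
    ⟨Finset.filter_subset _ _, rfl, k3 N (le_max_left _ _)⟩
  obtain ⟨F', r1, s1, s2, s3, s4⟩ : ∃ F' r1, r1 ≠ ⊥ ∧ r1 ≤ r ∧ P G0 N (G.image (key e N)) r1 F' ∧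
      ∀ y ∈ F', y ∉ G0 → y ∉ {y | Near e n G y ∧ ¬ r ≤ w y} := by
    by_contra hcon
    push Not at hcon
    obtain ⟨r', t1, t2, Z', t3, t4, t5⟩ := hI3' G0 (N, G.image (key e N)) r _ k1 ⟨w1, hcon⟩
    obtain ⟨y, y1, y2, y3⟩ := t5 G r' t1 le_rfl (hP _ _ _ _ _ _ t2 hPG)
    exact y2 (Finset.mem_filter.mpr ⟨y1, hZ G0 hG0 (Or.inr (Or.inr
      (Set.mem_iUnion.mpr ⟨_, Set.mem_biUnion ⟨t3, t4⟩ y3⟩)))⟩)
  obtain ⟨r2, t1, t2, t3⟩ := refine_fin (F' \ G0)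
    (fun y r' => ∃ m, ∀ z, key e m z = key e m y → r' ≤ w z) s1
    (fun y a b c ⟨m, hm⟩ => ⟨m, fun z hz => c.trans (hm z hz)⟩) (by
      intro y hy r' a b
      rw [Finset.mem_sdiff] at hy
      have c : Near e n G y := by
        have : key e N y ∈ G.image (key e N) := s3.2.1 ▸ Finset.mem_image_of_mem _ hy.1
        obtain ⟨z, z1, z2⟩ := Finset.mem_image.mp this
        exact ⟨z, z1, key_mono e (le_max_right _ _) z2.symm⟩
      have d : r ≤ w y := by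
        by_contra hcon
        exact s4 y hy.1 hy.2 ⟨c, hcon⟩
      obtain ⟨m, r'', x1, x2, x3⟩ := w2 y r' a (b.trans s2) ((b.trans s2).trans d)
      exact ⟨r'', x1, x2, m, x3⟩)
  choose! m hm using t3
  let M := (F' \ G0).sup m
  obtain ⟨r3, a1, a2, F, a3, a4, a5⟩ := hI2' G0 (N, G.image (key e N), M, (F' \ G0).image (key e M))
    r2 F' t1 ⟨hP _ _ _ _ _ _ t2 s3, fun y b c =>
      Finset.mem_image_of_mem _ (Finset.mem_sdiff.mpr ⟨b, c⟩)⟩
  have hFZ : (F : Set Y) ⊆ Z := fun y hy => hZ G0 hG0 (Or.inr (Or.inl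
    (Set.mem_iUnion.mpr ⟨_, Set.mem_biUnion a3 hy⟩)))
  have hr : r3 ≤ r := a2.trans (t2.trans s2)
  refine ⟨F, F ∪ G, r3, hFZ, a1, hr.trans k2, w3 _ r3 Finset.subset_union_right hr ?_,
    a4.2.2 _ Finset.subset_union_left ?_⟩
  · intro y b c
    obtain ⟨z, z1, z2⟩ := Finset.mem_image.mp (a5 y ((Finset.mem_union.mp b).resolve_right c)
      (fun h => c (Finset.mem_filter.mp h).1))
    exact a2.trans (hm z z1 y (key_mono e (Finset.le_sup z1) z2.symm))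
  · intro y b c
    have d := (Finset.mem_union.mp b).resolve_left c
    have : key e N y ∈ F.image (key e N) := a4.2.1.symm ▸ Finset.mem_image_of_mem _ d
    obtain ⟨z, z1, z2⟩ := Finset.mem_image.mp this
    exact ⟨⟨z, z1, z2.symm⟩, fun h => c (a4.1 (Finset.mem_filter.mpr ⟨d, hZ F hFZ (Or.inl h)⟩))⟩

theorem nm_comb (hc : CCC B) [Uncountable Y] (he : Function.Injective e) (q : B)
    (S : ℕ → Finset Y → B) (h : ∀ n r, r ≠ ⊥ → r ≤ q →
      ∃ r', r' ≠ ⊥ ∧ r' ≤ r ∧ ∃ T : Finset (Finset Y), ∀ F, F ∉ T → r' ≤ (S n F)ᶜ) :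
    ∃ (v : Finset Y → B) (K0 : Finset Y), Opn e q v ∧ v K0 = ⊤ ∧
      ∀ n F K, F ⊆ K → (∀ y ∈ K, Near e n F y) → q ⊓ v K ⊓ S n F = ⊥ := by
  classical
  have hsep : ∀ y z : Y, y ≠ z → ∃ m, key e m y ≠ key e m z := by
    intro y z hyz
    obtain ⟨k, hk⟩ := Function.ne_iff.mp (he.ne hyz)
    exact ⟨k + 1, fun h => hk ((key_eq_iff e).mp h k (Nat.lt_succ_self k))⟩
  choose I hI hI' using fun n => ccc_choice hc
    (fun r (T : Finset (Finset Y)) => ∀ F, F ∉ T → r ≤ (S n F)ᶜ)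
    (fun r r' T k1 k2 F hF => k1.trans (k2 F hF))
  let C : Set Y := ⋃ n, ⋃ T ∈ I n, ⋃ F ∈ T, (F : Set Y)
  have hC : C.Countable := Set.countable_iUnion (fun n => (hI n).biUnion (fun T _ =>
    T.countable_toSet.biUnion (fun F _ => F.countable_toSet)))
  have hC' : ∀ n F y, y ∈ F → y ∉ C → q ≤ (S n F)ᶜ := by
    intro n F y y1 y2
    refine le_compl_of (fun r r1 r2 r3 => y2 ?_)
    obtain ⟨r', s1, s2, T, s3⟩ := h n r r1 r2
    obtain ⟨r'', t1, t2, T', t3, t4⟩ := hI' n r' T s1 s3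
    refine Set.mem_iUnion.mpr ⟨n, Set.mem_biUnion t3 (Set.mem_biUnion (x := F) ?_ y1)⟩
    by_contra hcon
    exact false_of_le_compl t1 (t2.trans (s2.trans r3)) (t4 F hcon)
  obtain ⟨y', hy'⟩ : ∃ y, y ∉ C := by
    by_contra hcon
    push Not at hcon
    exact Set.not_countable_univ (hC.mono (fun a _ => hcon a))
  obtain ⟨w, hw⟩ : ∃ w : Y → B, ∀ y r, r ≠ ⊥ → (r ≤ w y ↔ y ≠ y' ∧
      ∀ n F, y ∈ F → key e n y = key e n y' → r ≤ (S n F)ᶜ) := by
    refine ⟨fun y => if y = y' then ⊥ else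
      ⨅ n, ⨅ F, ⨅ (_ : y ∈ F), ⨅ (_ : key e n y = key e n y'), (S n F)ᶜ, fun y r hr => ?_⟩
    by_cases hy : y = y'
    · simp [hy, hr]
    · simp [hy]
  have hopen : OpenAt e q w := by
    intro y r r1 r2 r3
    obtain ⟨m0, hm0⟩ := hsep y y' ((hw y r r1).mp r3).1
    obtain ⟨r', s1, s2, s3⟩ := refine_fin (Finset.range m0)
      (fun n r' => ∃ T : Finset (Finset Y), ∀ F, F ∉ T → r' ≤ (S n F)ᶜ) r1
      (fun n a b c ⟨T, hT⟩ => ⟨T, fun F hF => c.trans (hT F hF)⟩)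
      (fun n _ a b c => h n a b (c.trans r2))
    choose! T hT using s3
    choose! m hm using hsep y
    let P : Finset Y := (Finset.range m0).biUnion (fun n => (T n).biUnion id)
    refine ⟨max m0 (P.sup m), r', s1, s2, fun z hz => ?_⟩
    by_cases hzy : z = y
    · rw [hzy]; exact s2.trans r3
    have z1 := key_mono e (le_max_left _ _) hz
    refine (hw z r' s1).mpr ⟨fun k => hm0 (by rw [← z1, k]), fun n F z2 z3 => ?_⟩
    have hn : n ∈ Finset.range m0 := by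
      rw [Finset.mem_range]
      by_contra hcon
      exact hm0 (z1.symm.trans (key_mono e (not_lt.mp hcon) z3))
    refine hT n hn F (fun hF => hm z (Ne.symm hzy) ?_)
    exact (key_mono e ((Finset.le_sup (Finset.mem_biUnion.mpr ⟨n, hn,
      Finset.mem_biUnion.mpr ⟨F, hF, z2⟩⟩)).trans (le_max_right _ _)) hz).symm
  refine ⟨fun K => if y' ∈ K then (K.erase y').inf w else ⊥, {y'}, ?_, by simp, ?_⟩
  · intro K r r1 r2 r3
    beta_reduce at r3
    have k1 : y' ∈ K := by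
      by_contra hcon
      rw [if_neg hcon] at r3
      exact r1 (le_bot_iff.mp r3)
    rw [if_pos k1, Finset.le_inf_iff] at r3
    refine ⟨r, r1, le_rfl, w, 0, (hC.insert y').mono (fun y hy => ?_), hopen.mono r2,
      fun L s s1 s2 s3 => ?_⟩
    · by_contra hcon
      rw [Set.mem_insert_iff, not_or] at hcon
      exact hy.2 ((hw y r r1).mpr ⟨hcon.1, fun n F a _ => r2.trans (hC' n F y a hcon.2)⟩)
    · simp only [if_pos (s1 k1), Finset.le_inf_iff]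
      intro y hy
      rw [Finset.mem_erase] at hy
      by_cases hK : y ∈ K
      · exact s2.trans (r3 y (Finset.mem_erase.mpr ⟨hy.1, hK⟩))
      · exact s3 y hy.2 hK
  · intro n F K k1 k2
    by_contra hne
    by_cases k3 : y' ∈ K
    · simp only [if_pos k3] at hne
      obtain ⟨y, y1, y2⟩ := k2 y' k3
      by_cases hy : y = y'
      · exact false_of_le_compl hne inf_le_right
          ((inf_le_left.trans inf_le_left).trans (hC' n F y' (hy ▸ y1) hy'))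
      · exact false_of_le_compl hne inf_le_right (((hw y _ hne).mp ((inf_le_left.trans
          inf_le_right).trans (Finset.inf_le (Finset.mem_erase.mpr ⟨hy, k1 y1⟩)))).2 n F y1 y2.symm)
    · simp [k3] at hne

end Pool.Agent.P.MP_ed8104_gt.I
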