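import Mathlib
import Pool.Agent.P.MP_ed8104_gt.I.Basic

/-! After adding more than `ℵ₁` Cohen reals, every dominating family has size more than `ℵ₁`. -/

namespace Pool.Agent.P.MP_ed8104_gt.I

open Pool.Agent.P.MP_54b694_lc Name Cardinal

variable {B K : Type} [CompleteBooleanAlgebra B]

theorem not_dominating (C : Cohen (K × ℕ × ℕ) B) (hK : ℵ₁ < #K) {I : Type} (hI : #I ≤ ℵ₁)
    {q : B} (hq : q ≠ ⊥) {D : Name B} {y : I → Name B} (hy : Covered q D y)
    (hD : Forces q (fun U => Dominating (mem U) (mk U omegaN) (mk U D))) : False := by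
  classical
  choose ρ hρ using fun (i : I) (n l : ℕ) => rep_rel (y i) (natN n) (natN l)
  choose S hS1 hS2 using fun i n l => C.exists_support (ρ i n l)
  obtain ⟨k, hk⟩ : ∃ k : K, ∀ i n l a, (k, a) ∉ S i n l := by
    by_contra hcon
    push Not at hcon
    have h1 : (Set.univ : Set K) ⊆ ⋃ i, ⋃ n, ⋃ l, Prod.fst '' S i n l := by
      intro k _
      obtain ⟨i, n, l, a, h⟩ := hcon k
      exact Set.mem_iUnion.mpr ⟨i, Set.mem_iUnion.mpr ⟨n, Set.mem_iUnion.mpr ⟨l, _, h, rfl⟩⟩⟩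
    have h2 : #(⋃ i, ⋃ n, ⋃ l, Prod.fst '' S i n l) ≤ #I * ℵ₀ :=
      Cardinal.mk_iUnion_le_sum_mk.trans ((Cardinal.sum_le_sum _ (fun _ : I => ℵ₀)
        (fun i => Cardinal.mk_le_aleph0_iff.mpr (Set.countable_iUnion (fun n =>
          Set.countable_iUnion (fun l => (hS1 i n l).image _))))).trans
        (Cardinal.sum_const' _ _).le)
    have h3 := (Cardinal.mk_le_mk_of_subset h1).trans h2
    rw [Cardinal.mk_univ] at h3
    exact absurd (h3.trans (Cardinal.mul_le_of_le Cardinal.aleph0_lt_aleph_one.le hI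
      Cardinal.aleph0_lt_aleph_one.le)) (not_le.mpr hK)
  let b : ℕ → ℕ → B := fun n j =>
    C.lit (k, n, j) true ⊓ (Finset.range j).inf (fun i => C.lit (k, n, i) false)
  have hb : ∀ n j f, C.pt f (b n j) ↔ f (k, n, j) = true ∧ ∀ i < j, f (k, n, i) = false := by
    intro n j f
    constructor
    · intro h
      exact ⟨(C.pt_lit _ _ _).mp (C.pt_mono inf_le_left h), fun i hi => (C.pt_lit _ _ _).mp
        ((C.pt_finset_inf _ _ _).mp (C.pt_mono inf_le_right h) i (Finset.mem_range.mpr hi))⟩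
    · intro h
      exact C.pt_inf ((C.pt_lit _ _ _).mpr h.1) ((C.pt_finset_inf _ _ _).mpr
        (fun i hi => (C.pt_lit _ _ _).mpr (h.2 i (Finset.mem_range.mp hi))))
  choose c hc1 hc2 using fun n => exists_nat_name (b n) (fun i j hij => by
      by_contra hne
      obtain ⟨f, hf⟩ := C.exists_pt hne
      have h1 := (hb _ _ _).mp (C.pt_mono inf_le_left hf)
      have h2 := (hb _ _ _).mp (C.pt_mono inf_le_right hf)
      rcases lt_or_gt_of_ne hij with h | h
      · exact absurd (h1.1.symm.trans (h2.2 i h)) (by simp)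
      · exact absurd (h2.1.symm.trans (h1.2 j h)) (by simp)) (fun p hp => by
      obtain ⟨f, hf⟩ := C.exists_pt hp
      obtain ⟨s, hs⟩ := C.loc hf
      obtain ⟨j, hj⟩ := Infinite.exists_notMem_finset (s.image (fun a => a.2.2))
      have h1 : C.pt (Function.update f (k, n, j) true) p := hs _ (fun a ha =>
        Function.update_of_ne (fun h => hj (Finset.mem_image.mpr ⟨a, ha, by rw [h]⟩)) _ _)
      have h2 : ∃ i, Function.update f (k, n, j) true (k, n, i) = true :=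
        ⟨j, Function.update_self _ _ _⟩
      exact ⟨Nat.find h2, C.ne_bot (C.pt_inf h1 ((hb _ _ _).mpr ⟨Nat.find_spec h2,
        fun i hi => by simpa using Nat.find_min h2 hi⟩))⟩)
  obtain ⟨f, hf⟩ := Forces.ex (P := fun U f => mem U f (mk U D) ∧ ∃ m, mem U m (mk U omegaN) ∧
      ∀ n a b, mem U m n → Rel (mem U) (mk U (seqN c)) n a → Rel (mem U) f n b →
        mem U a b ∨ a = b) (fun f => (Rep.mem f D).and (rep_bound _ _ f)) (p := q)
    (fun U hU => (hD U hU).2 _ (isFn_seqN U hc1))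
  obtain ⟨m, hm⟩ := Forces.ex (P := fun U m => mem U m (mk U omegaN) ∧
      ∀ n a b, mem U m n → Rel (mem U) (mk U (seqN c)) n a → Rel (mem U) (mk U f) n b →
        mem U a b ∨ a = b) (fun m => (Rep.mem m _).and (Rep.all (fun n => Rep.all (fun a =>
      Rep.all (fun b => (Rep.mem m n).imp ((rep_rel _ n a).imp ((rep_rel f n b).imp
      ((Rep.mem a b).or (Rep.eq a b))))))))) (p := q) (fun U hU => (hf U hU).2)
  obtain ⟨i, r0, g1, g2, g3⟩ := hy f q hq le_rfl (fun U hU => (hf U hU).1)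
  obtain ⟨m0, r, s1, s2, s3⟩ := covered_omega q m r0 g1 g2 (fun U hU => (hm U (U.mono g2 hU)).1)
  obtain ⟨g, hg⟩ := C.exists_pt s1
  obtain ⟨s, hs⟩ := C.loc hg
  obtain ⟨n, hn1, hn2⟩ : ∃ n, m0 < n ∧ ∀ a ∈ s, a.2.1 ≠ n :=
    ⟨m0 + s.sup (fun a => a.2.1) + 1, by omega, fun a ha => by
      have := Finset.le_sup (f := fun a : K × ℕ × ℕ => a.2.1) ha
      omega⟩
  have hp : ∀ g', C.pt g' (s.inf (fun a => C.lit a (g a))) ↔ ∀ a ∈ s, g' a = g a := fun g' => by
    simp only [C.pt_finset_inf, C.pt_lit]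
  have hpr : s.inf (fun a => C.lit a (g a)) ≤ r := C.le_of_pt (fun g' h => hs g' ((hp g').mp h))
  have hrq : r ≤ q := s2.trans g2
  obtain ⟨v, hv⟩ := exists_values f
  have hfn : ∀ V : Ultra B, V.s q → IsFn (mem V) (mk V omegaN) (mk V f) :=
    fun V hV => (hD V hV).1 _ (hf V hV).1
  obtain ⟨l, r1, t1, t2, t3⟩ := covered_omega q (v n) _ (C.ne_bot ((hp g).mpr (fun _ _ => rfl)))
    (hpr.trans hrq) (fun V hV => (hfn V (V.mono (hpr.trans hrq) hV)).2 _ _
      (hv n V (hfn V (V.mono (hpr.trans hrq) hV)).1))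
  have t4 : r1 ≤ ρ i n l := le_of_ultra (fun V hV => by
    have k1 := V.mono (t2.trans hpr) hV
    rw [hρ]
    beta_reduce
    rw [← g3 V (V.mono s2 k1), ← t3 V hV]
    exact hv n V (hfn V (V.mono hrq k1)).1)
  obtain ⟨g1', u1, u2⟩ := hS2 i n l _ (ne_bot_of_le_ne_bot t1 (le_inf t2 t4))
  let g' : K × ℕ × ℕ → Bool := fun a => if a.1 = k ∧ a.2.1 = n then decide (a.2.2 = l + 1)
    else g1' a
  have w1 : C.pt g' r := hs g' (fun a ha => by
    simp only [g', if_neg (fun h : a.1 = k ∧ a.2.1 = n => hn2 a ha h.2)]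
    exact (hp _).mp u1 a ha)
  have w2 : C.pt g' (ρ i n l) := u2 g' (fun a ha => by
    have : ¬ (a.1 = k ∧ a.2.1 = n) := fun h => hk i n l a.2 (by rw [← h.1]; exact ha)
    simp only [g', if_neg this])
  have w3 : C.pt g' (b n (l + 1)) := (hb _ _ _).mpr ⟨by simp [g'], fun j hj => by
    simp [g', hj.ne]⟩
  obtain ⟨V, hV⟩ := exists_ultra (C.ne_bot (C.pt_inf w1 (C.pt_inf w2 w3)))
  rw [V.inf_iff, V.inf_iff] at hV
  have z1 := (hm V (V.mono hrq hV.1)).2 (mk V (natN n)) (mk V (natN (l + 1))) (mk V (natN l))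
    (by rw [s3 V hV.1]; exact natN_mem V hn1)
    (by rw [← hc2 n _ V hV.2.2]; exact rel_seqN V c n)
    (by rw [g3 V (V.mono s2 hV.1)]; exact (hρ _ _ _ _).mp hV.2.1)
  rcases z1 with h | h
  · rw [natN_mem_iff] at h
    omega
  · have := natN_inj V h
    omega

theorem ltDom (C : Cohen (K × ℕ × ℕ) B) (hK : ℵ₁ < #K) {I : Type} (hI : #I ≤ ℵ₁)
    {X : Name B} {x : I → Name B} (hx : Covered ⊤ X x) (U : Ultra B) :
    LtDom (mem U) (mk U omegaN) (mk U X) := by
  intro D hD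
  obtain ⟨D, rfl⟩ := mk_surj D
  obtain ⟨q, hq, hF⟩ := value (rep_dom omegaN D) hD
  constructor
  · obtain ⟨d, d1, d2⟩ := exists_seq_of_uncountable (p := q) (X := D) (fun V hV hc => by
      obtain ⟨r, g1, g2, g3⟩ := (rep_countable D).localize hc hV
      obtain ⟨y, hy⟩ := exists_cover_of_countable g3
      exact not_dominating C hK (by simp) g1 hy (hF.mono g2))
    obtain ⟨e⟩ := (Cardinal.le_def I Om).mp (by rw [mk_Om]; exact hI)
    exact forces_cardLE (z := fun i => d (e i)) (hx.mono le_top) (fun i => d1 _)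
      (fun i j V hV h => e.injective (d2 _ _ V hV h)) U hq
  · intro hc
    obtain ⟨r, g1, g2, g3⟩ := (rep_cardLE D X).localize hc hq
    obtain ⟨y, hy⟩ := covered_of_cardLE g3 (hx.mono le_top)
    exact not_dominating C hK hI g1 hy (hF.mono g2)

end Pool.Agent.P.MP_ed8104_gt.I
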