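import Mathlib
import Pool.Agent.P.MP_ed8104_gt.I.Comb
import Pool.Agent.P.MP_ed8104_gt.I.Unb

/-! The Cohen model has a weakly Lindelöf space of size `ℵ₁ < 𝔡` that is not weakly Menger. -/

namespace Pool.Agent.P.MP_ed8104_gt.I

open Pool.Agent.P.MP_54b694_lc Name Cardinal

variable {B Y : Type} [CompleteBooleanAlgebra B] (e : Y → ℕ → Bool) (nm : Finset Y → Name B)

/-- The set of points with membership values `u`. -/
def tr (u : Finset Y → B) : Name B := Name.mk (Finset Y) nm u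

/-- The topology. -/
def tau : Name B := Name.mk (Finset Y → B) (tr nm) (fun u => sSup {q | Opn e q u})

/-- The names of the points are forced to be distinct. -/
def Dist : Prop := ∀ (U : Ultra B) H K, mk U (nm H) = mk U (nm K) → H = K

variable {e nm}

theorem mem_tr (hd : Dist nm) {U : Ultra B} {H : Finset Y} {u : Finset Y → B} :
    mem U (mk U (nm H)) (mk U (tr nm u)) ↔ U.s (u H) := by
  refine ⟨fun h => ?_, mem_mk_of H⟩
  refine of_mem_mk (P := fun V x => x = mk V (nm H) → V.s (u H))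
    (fun x => (Rep.eq x _).imp (Rep.of_s _)) ?_ U _ h rfl
  intro K V k1 k2
  rwa [hd V _ _ k2] at k1

theorem tr_sub (U : Ultra B) (u : Finset Y → B) :
    Sub (mem U) (mk U (tr nm u)) (mk U (tr nm (fun _ => ⊤))) :=
  of_mem_mk (P := fun V x => mem V x (mk V (tr nm (fun _ => ⊤)))) (fun x => Rep.mem x _)
    (fun K V _ => mem_mk_of K V.top) U

theorem tr_mem_tau {q : B} {u : Finset Y → B} (h : Opn e q u) :
    Forces q (fun U => mem U (mk U (tr nm u)) (mk U (tau e nm))) :=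
  fun U hU => mem_mk_of (A := tr nm) u (U.mono (le_sSup (s := {q | Opn e q u}) h) hU)

theorem tau_intro {q : B} {A : Name B} (h : Opn e q (fun H => bmem (nm H) A)) (U : Ultra B)
    (hU : U.s q) (hs : Sub (mem U) (mk U A) (mk U (tr nm (fun _ => ⊤)))) :
    mem U (mk U A) (mk U (tau e nm)) := by
  rw [eq_trace U _ A hs]
  exact tr_mem_tau (u := fun H => ⊤ ⊓ bmem (nm H) A) (h.congr le_rfl (by simp)) U hU

theorem tau_elim (hd : Dist nm) {q : B} {A : Name B}
    (h : Forces q (fun U => mem U (mk U A) (mk U (tau e nm)))) :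
    Opn e q (fun H => bmem (nm H) A) := by
  refine Opn.of_dense (fun r h1 h2 => ?_)
  obtain ⟨u, r', g1, g2, g3, g4⟩ := (h.mono h2).refine_mem h1
  refine ⟨r', g1, g2, (opn_sSup u).congr g3 (fun K s hs =>
    ⟨fun k => le_of_ultra (fun V hV => ?_), fun k => le_of_ultra (fun V hV => ?_)⟩)⟩
  · rw [← mem_mk, g4 V (V.mono hs hV), mem_tr hd]
    exact V.mono k hV
  · rw [← mem_tr hd, ← g4 V (V.mono hs hV)]
    exact V.mono k hV

theorem tau_sub (U : Ultra B) (A : Mod U) (h : mem U A (mk U (tau e nm))) :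
    Sub (mem U) A (mk U (tr nm (fun _ => ⊤))) :=
  of_mem_mk (P := fun V A => Sub (mem V) A (mk V (tr nm (fun _ => ⊤)))) (fun A => rep_sub A _)
    (fun u V _ => tr_sub V u) U A h

theorem opn_const (s : Finset Y → Prop) [DecidablePred s] (h : ∀ H, s H → ∃ (n : ℕ) (F : Finset Y),
    (∀ y, Near e n H y → Near e n F y) ∧ ∀ K, H ⊆ K → (∀ y ∈ K, y ∉ H → Near e n F y) → s K) :
    Opn e (⊤ : B) (fun H => if s H then ⊤ else ⊥) := by
  classical
  intro H r r1 _ r3
  have hs : s H := by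
    by_contra hcon
    exact r1 (by simpa [hcon] using r3)
  obtain ⟨n, F, h1, h2⟩ := h H hs
  have key' : ∀ y (t : B), t ≠ ⊥ → (t ≤ (if Near e n F y then ⊤ else ⊥) ↔ Near e n F y) := by
    intro y t ht
    by_cases hy : Near e n F y <;> simp [hy, ht]
  refine ⟨r, r1, le_rfl, fun y => if Near e n F y then ⊤ else ⊥, n,
    Set.countable_empty.mono (fun y hy => hy.2 ((key' y r r1).mpr (h1 y hy.1))),
    fun y t t1 _ t3 => ⟨n, t, t1, le_rfl, fun z hz => (key' z t t1).mpr ?_⟩,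
    fun K t t1 _ t3 => ?_⟩
  · obtain ⟨a, a1, a2⟩ := (key' y t t1).mp t3
    exact ⟨a, a1, hz.trans a2⟩
  · by_cases ht : t = ⊥
    · rw [ht]; exact bot_le
    · simp [h2 K t1 (fun y a b => (key' y t ht).mp (t3 y a b))]

theorem isTop (hd : Dist nm) (U : Ultra B) :
    IsTop (mem U) (mk U (tr nm (fun _ => ⊤))) (mk U (tau e nm)) := by
  refine ⟨tau_sub U, tr_mem_tau (q := ⊤) (fun H r r1 _ _ => ⟨r, r1, le_rfl, fun _ => ⊤, 0,
    by simp, fun y t t1 _ _ => ⟨0, t, t1, le_rfl, fun _ _ => le_top⟩, fun _ _ _ _ _ => le_top⟩)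
    U U.top, fun A A' W h1 h2 h3 => ?_, fun A W h1 h2 => ?_⟩
  · obtain ⟨A, rfl⟩ := mk_surj A
    obtain ⟨A', rfl⟩ := mk_surj A'
    obtain ⟨W, rfl⟩ := mk_surj W
    obtain ⟨q, hq, hF⟩ := value ((Rep.mem A (tau e nm)).and ((Rep.mem A' (tau e nm)).and (Rep.all
      (P := fun U x => mem U x (mk U W) ↔ mem U x (mk U A) ∧ mem U x (mk U A'))
      (fun x => (Rep.mem x W).iff ((Rep.mem x A).and (Rep.mem x A')))))) ⟨h1, h2, h3⟩
    refine tau_intro (fun H r r1 r2 r3 => ?_) U hq (fun x hx => tau_sub U _ h1 x ((h3 x).mp hx).1)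
    have k : ∀ V : Ultra B, V.s r → V.s (bmem (nm H) A) ∧ V.s (bmem (nm H) A') :=
      fun V hV => ((hF V (V.mono r2 hV)).2.2 (mk V (nm H))).mp (V.mono r3 hV)
    obtain ⟨s, s1, s2, s3⟩ := tau_elim hd (fun V hV => (hF V hV).1) H r r1 r2
      (le_of_ultra (fun V hV => (k V hV).1))
    obtain ⟨t, t1, t2, t3⟩ := tau_elim hd (fun V hV => (hF V hV).2.1) H s s1 (s2.trans r2)
      (le_of_ultra (fun V hV => (k V (V.mono s2 hV)).2))
    refine ⟨t, t1, t2.trans s2, ((s3.mono t2 (fun _ _ _ h => h)).inf t3).mono le_rfl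
      (fun K p p1 p2 => le_of_ultra (fun V hV => ?_))⟩
    exact ((hF V (V.mono (p1.trans (t2.trans (s2.trans r2))) hV)).2.2 (mk V (nm K))).mpr
      (V.inf_iff.mp (V.mono p2 hV))
  · obtain ⟨A, rfl⟩ := mk_surj A
    obtain ⟨W, rfl⟩ := mk_surj W
    obtain ⟨q, hq, hF⟩ := value ((rep_sub A (tau e nm)).and (Rep.all
      (P := fun U x => mem U x (mk U W) ↔ ∃ a, mem U a (mk U A) ∧ mem U x a)
      (fun x => (Rep.mem x W).iff (Rep.ex (fun a => (Rep.mem a A).and (Rep.mem x a)))))) ⟨h1, h2⟩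
    refine tau_intro (fun H r r1 r2 r3 => ?_) U hq (fun x hx => ?_)
    · obtain ⟨a, ha⟩ := Forces.ex (P := fun U a => mem U a (mk U A) ∧ mem U (mk U (nm H)) a)
        (fun a => (Rep.mem a A).and (Rep.mem _ a)) (p := r)
        (fun V hV => ((hF V (V.mono r2 hV)).2 (mk V (nm H))).mp (V.mono r3 hV))
      obtain ⟨s, s1, s2, s3⟩ := tau_elim hd (q := r)
        (fun V hV => (hF V (V.mono r2 hV)).1 _ (ha V hV).1) H r r1 le_rfl
        (le_of_ultra (fun V hV => (ha V hV).2))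
      refine ⟨s, s1, s2, s3.mono le_rfl (fun K p p1 p2 => le_of_ultra (fun V hV => ?_))⟩
      have k := V.mono (p1.trans s2) hV
      exact ((hF V (V.mono r2 k)).2 (mk V (nm K))).mpr ⟨_, (ha V k).1, V.mono p2 hV⟩
    · obtain ⟨a, a1, a2⟩ := (h2 x).mp hx
      exact tau_sub U _ (h1 a a1) x a2

theorem wLindelof (hc : CCC B) (hd : Dist nm) (U : Ultra B) :
    WLindelof (mem U) (mk U (tr nm (fun _ => ⊤))) (mk U (tau e nm)) := by
  intro C hC
  obtain ⟨C, rfl⟩ := mk_surj C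
  obtain ⟨q, hq, hF⟩ := value (rep_cover _ _ C) hC
  choose A hA using fun F => Rep.witness
    (P := fun U a => mem U a (mk U C) ∧ mem U (mk U (nm F)) a)
    (fun a => (Rep.mem a _).and (Rep.mem _ a))
  have hA' : ∀ F (V : Ultra B), V.s q →
      mem V (mk V (A F)) (mk V C) ∧ mem V (mk V (nm F)) (mk V (A F)) :=
    fun F V hV => hA F V ((hF V hV).2 _ (mem_mk_of F V.top))
  obtain ⟨Z, hZ, hZ'⟩ := wl_comb (e := e) hc q (fun F K => bmem (nm K) (A F))
    (fun F => tau_elim hd (fun V hV => (hF V hV).1 _ (hA' F V hV).1))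
    (fun F => le_of_ultra (fun V hV => (hA' F V hV).2))
  have hcount : {G : Finset Y | (G : Set Y) ⊆ Z}.Countable := by
    apply Set.Countable.mono _
      ((Set.countable_ofPred_finite_subset hZ).preimage Finset.coe_injective)
    exact fun G hG => ⟨G.finite_toSet, hG⟩
  have := hcount.to_subtype
  let N : Name B := Name.mk {G : Finset Y | (G : Set Y) ⊆ Z} (fun G => A G) (fun _ => ⊤)
  refine ⟨mk U N, fun x hx => ?_, forces_countable (covered_mk ⊤ _ _) U U.top,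
    fun W k1 ⟨x, k2⟩ => ?_⟩
  · exact of_mem_mk (ι := {G : Finset Y | (G : Set Y) ⊆ Z})
      (P := fun V x => V.s q → mem V x (mk V C))
      (fun x => (Rep.of_s q).imp (Rep.mem x C)) (fun G V _ hV => (hA' G V hV).1) U x hx hq
  obtain ⟨W, rfl⟩ := mk_surj W
  obtain ⟨x, rfl⟩ := mk_surj x
  refine Rep.imp_of_dense ((Rep.of_s q).and ((Rep.mem W (tau e nm)).and (Rep.mem x W)))
    (Rep.ex (P := fun U x => mem U x (mk U W) ∧ ∃ a, mem U a (mk U N) ∧ mem U x a)
      (fun x => (Rep.mem x W).and (Rep.ex (fun a => (Rep.mem a N).and (Rep.mem x a))))) ?_ U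
    ⟨hq, k1, k2⟩
  intro p hp hP
  obtain ⟨G, r, g1, g2, g3⟩ := covered_mk p nm (fun _ => ⊤) x p hp le_rfl
    (fun V hV => tau_sub V _ (hP V hV).2.1 _ (hP V hV).2.2)
  obtain ⟨s, s1, s2, s3⟩ := tau_elim hd (fun V hV => (hP V hV).2.1) G r g1 g2
    (le_of_ultra (fun V hV => by
      rw [← mem_mk, ← g3 V hV]
      exact (hP V (V.mono g2 hV)).2.2))
  obtain ⟨F, K, t, t0, t1, t2, t3, t4⟩ := hZ' _ G s s1
    (s2.trans (g2.trans (le_of_ultra (fun V hV => (hP V hV).1)))) s3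
  exact ⟨t, t1, t2.trans (s2.trans g2), fun V hV => ⟨mk V (nm K), V.mono t3 hV, mk V (A F),
    mem_mk_of (A := fun G : {G : Finset Y | (G : Set Y) ⊆ Z} => A G) ⟨F, t0⟩ V.top, V.mono t4 hV⟩⟩

theorem not_wMenger (hc : CCC B) [Uncountable Y] (he : Function.Injective e) (hd : Dist nm)
    (U : Ultra B) :
    ¬ WMenger (mem U) (mk U omegaN) (mk U (tr nm (fun _ => ⊤))) (mk U (tau e nm)) := by
  classical
  intro h
  let bx : ℕ → Finset Y → Name B := fun n F =>
    tr nm (fun K => if F ⊆ K ∧ ∀ y ∈ K, Near e n F y then ⊤ else ⊥)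
  have hbx : ∀ n F K (V : Ultra B), mem V (mk V (nm K)) (mk V (bx n F)) ↔
      F ⊆ K ∧ ∀ y ∈ K, Near e n F y := by
    intro n F K V
    rw [mem_tr hd]
    split_ifs with k
    · exact iff_of_true V.top k
    · exact iff_of_false V.bot k
  have hself : ∀ n F (V : Ultra B), mem V (mk V (nm F)) (mk V (bx n F)) :=
    fun n F V => (hbx n F F V).mpr ⟨subset_rfl, fun y hy => ⟨y, hy, rfl⟩⟩
  let Cn : ℕ → Name B := fun n => Name.mk (Finset Y) (bx n) (fun _ => ⊤)
  have hCn : ∀ n (V : Ultra B),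
      Cover (mem V) (mk V (tr nm (fun _ => ⊤))) (mk V (tau e nm)) (mk V (Cn n)) := by
    intro n V
    constructor
    · refine of_mem_mk (P := fun V x => mem V x (mk V (tau e nm))) (fun x => Rep.mem x _)
        (fun F W _ => tr_mem_tau (opn_const _ (fun H hH => ⟨n, F, ?_, fun K a b =>
          ⟨hH.1.trans a, fun y c => ?_⟩⟩)) W W.top) V
      · rintro y ⟨z, z1, z2⟩
        obtain ⟨a, a1, a2⟩ := hH.2 z z1
        exact ⟨a, a1, z2.trans a2⟩
      · by_cases k : y ∈ H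
        exacts [hH.2 y k, b y c k]
    · exact of_mem_mk (P := fun V x => ∃ a, mem V a (mk V (Cn n)) ∧ mem V x a)
        (fun x => Rep.ex (fun a => (Rep.mem a _).and (Rep.mem x a)))
        (fun F W _ => ⟨_, mem_mk_of (A := bx n) F W.top, hself n F W⟩) V
  obtain ⟨t, t1, t2, t3⟩ := h (mk U (seqN Cn)) (isSeq_seqN U Cn) (of_rel_seqN
    (P := fun V _ C => Cover (mem V) (mk V (tr nm (fun _ => ⊤))) (mk V (tau e nm)) C)
    (fun _ C => rep_cover _ _ C) hCn U)
  obtain ⟨t, rfl⟩ := mk_surj t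
  obtain ⟨q, hq, hF⟩ := value ((rep_seq omegaN t).and ((Rep.all
    (P := fun U n => ∀ C V, Rel (mem U) (mk U (seqN Cn)) n C → Rel (mem U) (mk U t) n V →
      Sub (mem U) V C ∧ IsFin (mem U) (mk U omegaN) V)
    (fun n => Rep.all (fun C => Rep.all (fun V => (rep_rel _ n C).imp ((rep_rel t n V).imp
      ((rep_sub V C).and (rep_fin _ V)))))))) ) ⟨t1, t2⟩
  obtain ⟨Vn, hV⟩ := exists_values t
  have hVn : ∀ n (V : Ultra B), V.s q → Sub (mem V) (mk V (Vn n)) (mk V (Cn n)) ∧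
      IsFin (mem V) (mk V omegaN) (mk V (Vn n)) :=
    fun n V k => (hF V k).2 _ _ _ (rel_seqN V Cn n) (hV n V (hF V k).1)
  have hcov : ∀ n, Covered q (Vn n) (bx n) :=
    fun n => (covered_mk q _ _).subset (fun V k => (hVn n V k).1)
  obtain ⟨v, K0, v1, v2, v3⟩ := nm_comb hc he q (fun n F => bmem (bx n F) (Vn n)) (by
    intro n r r1 r2
    obtain ⟨s, s1, s2, T, s3⟩ := finite_cover r1 ((hcov n).mono r2)
      (fun V k => (hVn n V (V.mono r2 k)).2)
    refine ⟨s, s1, s2, T, fun F hFT => le_compl_of (fun p p1 p2 p3 => hFT ?_)⟩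
    obtain ⟨i, p', a1, -, a3⟩ := s3 (bx n F) p p1 p2 (fun V k => V.mono p3 k)
    obtain ⟨V, -, k⟩ := a3.exists a1
    have b1 := hself n F V
    have b2 := hself n i V
    rw [k, hbx] at b1
    rw [← k, hbx] at b2
    rw [Finset.Subset.antisymm b2.1 b1.1]
    exact i.2)
  obtain ⟨x, x1, n, A, a, x2, x3, x4⟩ := t3 _ (tr_mem_tau v1 U hq)
    ⟨mk U (nm K0), (mem_tr hd).mpr (v2 ▸ U.top)⟩
  obtain ⟨x, rfl⟩ := mk_surj x
  obtain ⟨n, rfl⟩ := mk_surj n
  obtain ⟨A, rfl⟩ := mk_surj A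
  obtain ⟨a, rfl⟩ := mk_surj a
  obtain ⟨p, p1, p2, hP⟩ := ((Rep.mem x (tr nm v)).and ((rep_rel t n A).and
    ((Rep.mem a A).and (Rep.mem x a)))).localize ⟨x1, x2, x3, x4⟩ hq
  obtain ⟨m, r, r1, r2, r3⟩ := covered_omega p n p p1 le_rfl
    (fun V k => (hF V (V.mono p2 k)).1.mem_left (hP V k).2.1)
  have hA : Forces r (fun V => mem V (mk V a) (mk V (Vn m))) := fun V k => by
    have c1 := hP V (V.mono r2 k)
    have c2 := (hF V (V.mono (r2.trans p2) k)).1
    have c3 := c1.2.1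
    rw [r3 V k] at c3
    beta_reduce
    rw [← c2.2.2 _ _ _ c3 (hV m V c2)]
    exact c1.2.2.1
  obtain ⟨F, s, s1, s2, s3⟩ := hcov m a r r1 (r2.trans p2) hA
  obtain ⟨K, u, u1, u2, u3⟩ := covered_mk s nm v x s s1 le_rfl
    (fun V k => (hP V (V.mono (s2.trans r2) k)).1)
  obtain ⟨V, k1, k2⟩ := u3.exists u1
  have c1 := hP V (V.mono (u2.trans (s2.trans r2)) k1)
  have c2 := hA V (V.mono (u2.trans s2) k1)
  beta_reduce at c1 c2
  rw [s3 V (V.mono u2 k1)] at c1 c2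
  rw [k2, mem_tr hd, hbx] at c1
  exact V.ne_bot (V.inf (V.inf (V.mono (u2.trans (s2.trans (r2.trans p2))) k1) c1.1) c2)
    (v3 m F K c1.2.2.2.1 c1.2.2.2.2)

theorem exists_dist {c : Finset Y → ℕ → Bool} (hc : Function.Injective c) :
    ∃ nm : Finset Y → Name B, Dist nm := by
  refine ⟨fun H => Name.mk ℕ natN (fun k => if c H k = true then ⊤ else ⊥), fun U H K h => ?_⟩
  have key' : ∀ H k, mem U (mk U (natN k))
      (mk U (Name.mk ℕ natN (fun k => if c H k = true then (⊤ : B) else ⊥))) ↔ c H k = true := by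
    intro H k
    refine ⟨fun h => ?_, fun h => mem_mk_of (A := natN) k (by rw [if_pos h]; exact U.top)⟩
    by_contra hcon
    refine of_mem_mk (P := fun V x => ¬ x = mk V (natN k)) (fun x => (Rep.eq x _).not) ?_ U _ h rfl
    intro j V k1 k2
    rw [natN_inj V k2, if_neg hcon] at k1
    exact V.bot k1
  refine hc (funext (fun k => Bool.eq_iff_iff.mpr ?_))
  rw [← key', ← key', h]

theorem exists_fail : ∃ (M : Type 1) (E : M → M → Prop), IsZFC E ∧ ¬ Holds E (WKocinac E) ∧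
    ¬ Holds E (WSakai E) ∧ ¬ Holds E (WMenger E) := by
  obtain ⟨C⟩ := exists_cohen (Set Om × ℕ × ℕ)
  have hle : ∀ T : Type, #T = ℵ₁ → Nonempty (T ↪ (ℕ → Bool)) := fun T hT => by
    rw [← Cardinal.le_def, hT]
    simpa using Cardinal.aleph_one_le_continuum
  have hX : #(Finset Om) = ℵ₁ := by rw [Cardinal.mk_finset_of_infinite, mk_Om]
  obtain ⟨e⟩ := hle Om mk_Om
  obtain ⟨c⟩ := hle _ hX
  obtain ⟨nm, hd⟩ := exists_dist (B := RO (Set Om × ℕ × ℕ → Bool)) c.injective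
  obtain ⟨U, -⟩ := exists_ultra (C.ne_bot (C.pt_top (fun _ => true)))
  have h1 := isTop (e := e) hd U
  have h2 := wLindelof (e := e) C.ccc hd U
  have h3 := ltDom C (by rw [Cardinal.mk_set, mk_Om]; exact Cardinal.cantor _) hX.le
    (covered_mk ⊤ nm (fun _ => ⊤)) U
  have h4 := not_wMenger C.ccc e.injective hd U
  exact ⟨Mod U, mem U, mod_isZFC U,
    fun h => h4 (menger_of_sakai (sakai_of_kocinac (h _ _ _ (isOmega_omega U) h1 h2 h3))),
    fun h => h4 (menger_of_sakai (h _ _ _ (isOmega_omega U) h1 h2 h3)),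
    fun h => h4 (h _ _ _ (isOmega_omega U) h1 h2 h3)⟩

end Pool.Agent.P.MP_ed8104_gt.I
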