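import Mathlib
import Pool.Agent.P.MP_ed8104_gt.I.Basic

/-! The model in which `𝔡 = ℵ₁`: countably closed conditions list all functions in type `ω₁`. -/

namespace Pool.Agent.P.MP_ed8104_gt.I

open Pool.Agent.P.MP_54b694_lc Name Cardinal TopologicalSpace

/-- `ω₁`-sequences of functions. -/
def Sp : Type := Om → ℕ → ℕ

/-- The countable box topology. -/
instance : TopologicalSpace Sp where
  IsOpen U := ∀ g ∈ U, ∃ S : Set Om, S.Countable ∧ ∀ g' : Sp, (∀ a ∈ S, g' a = g a) → g' ∈ U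
  isOpen_univ := fun _ _ => ⟨∅, Set.countable_empty, fun _ _ => trivial⟩
  isOpen_inter := by
    intro s t hs ht g hg
    obtain ⟨S, h1, h2⟩ := hs g hg.1
    obtain ⟨T, h3, h4⟩ := ht g hg.2
    exact ⟨S ∪ T, h1.union h3, fun g' h =>
      ⟨h2 g' (fun a ha => h a (Or.inl ha)), h4 g' (fun a ha => h a (Or.inr ha))⟩⟩
  isOpen_sUnion := by
    rintro s hs g ⟨U, hU, hg⟩
    obtain ⟨S, h1, h2⟩ := hs U hU g hg
    exact ⟨S, h1, fun g' h => ⟨U, hU, h2 g' h⟩⟩

/-- A point lies in a regular open set. -/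
def pt (g : Sp) (b : RO Sp) : Prop := g ∈ (Heyting.Regular.val b : Opens Sp)

theorem pt_ne_bot {g : Sp} {b : RO Sp} (h : pt g b) : b ≠ ⊥ := by
  rintro rfl
  exact h

theorem exists_pt {b : RO Sp} (hb : b ≠ ⊥) : ∃ g, pt g b := by
  by_contra hcon
  push Not at hcon
  apply hb
  apply Heyting.Regular.coe_injective
  ext f
  exact iff_of_false (hcon f) (fun h => h)

theorem pt_loc {g : Sp} {b : RO Sp} (h : pt g b) :
    ∃ S : Set Om, S.Countable ∧ ∀ g' : Sp, (∀ a ∈ S, g' a = g a) → pt g' b :=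
  (Heyting.Regular.val b : Opens Sp).isOpen g h

theorem exists_clopen (P : Sp → Prop) (S : Set Om) (hS : S.Countable)
    (h : ∀ g g' : Sp, (∀ a ∈ S, g' a = g a) → P g → P g') : ∃ b : RO Sp, ∀ g, pt g b ↔ P g := by
  let o : Opens Sp := ⟨{g | P g}, fun g hg => ⟨S, hS, fun g' k => h g g' k hg⟩⟩
  let o' : Opens Sp := ⟨{g | ¬ P g}, fun g hg => ⟨S, hS, fun g' k k' =>
    hg (h g' g (fun a ha => (k a ha).symm) k')⟩⟩
  have hc : IsCompl o o' := by
    constructor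
    · rw [disjoint_iff]
      ext f
      simp [o, o']
    · rw [codisjoint_iff]
      ext f
      simp [o, o', em]
  exact ⟨⟨o, by rw [Heyting.IsRegular, hc.compl_eq, hc.symm.compl_eq]⟩, fun g => Iff.rfl⟩

theorem exists_generic {q : RO Sp} (hq : q ≠ ⊥) (ρ : ℕ → ℕ → RO Sp)
    (h : ∀ n r, r ≠ ⊥ → r ≤ q → ∃ m, r ⊓ ρ n m ≠ ⊥) : ∃ (r : RO Sp) (a : Om) (f : ℕ → ℕ),
      r ≠ ⊥ ∧ r ≤ q ∧ (∀ n, r ≤ ρ n (f n)) ∧ ∀ g, pt g r → g a = f := by
  classical
  let T := {p : Set Om × Sp // p.1.Countable ∧ ∀ g' : Sp, (∀ a ∈ p.1, g' a = p.2 a) → pt g' q}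
  have step : ∀ (n : ℕ) (t : T), ∃ (t' : T) (m : ℕ), t.1.1 ⊆ t'.1.1 ∧
      (∀ a ∈ t.1.1, t'.1.2 a = t.1.2 a) ∧
      ∀ g' : Sp, (∀ a ∈ t'.1.1, g' a = t'.1.2 a) → pt g' (ρ n m) := by
    rintro n ⟨⟨S, g⟩, hS, hg⟩
    obtain ⟨b, hb⟩ := exists_clopen (fun g' => ∀ a ∈ S, g' a = g a) S hS
      (fun g1 g2 k1 k2 a ha => (k1 a ha).trans (k2 a ha))
    obtain ⟨m, hm⟩ := h n b (pt_ne_bot ((hb g).mpr (fun _ _ => rfl)))
      (fun g' k => hg g' ((hb g').mp k))
    obtain ⟨g1, k1⟩ := exists_pt hm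
    obtain ⟨S1, k2, k3⟩ := pt_loc k1
    have k4 := (hb g1).mp k1.1
    exact ⟨⟨(S ∪ S1, g1), hS.union k2, fun g' k => hg g' (fun a ha =>
      (k a (Or.inl ha)).trans (k4 a ha))⟩, m, Set.subset_union_left, k4,
      fun g' k => (k3 g' (fun a ha => k a (Or.inr ha))).2⟩
  choose st m h1 h2 h3 using step
  obtain ⟨g0, k0⟩ := exists_pt hq
  obtain ⟨S0, k1, k2⟩ := pt_loc k0
  let t : ℕ → T := fun n => Nat.rec ⟨(S0, g0), k1, k2⟩ st n
  have ht : ∀ n k, n ≤ k → (t n).1.1 ⊆ (t k).1.1 ∧ ∀ a ∈ (t n).1.1, (t k).1.2 a = (t n).1.2 a := by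
    intro n k hnk
    induction hnk with
    | refl => exact ⟨subset_rfl, fun _ _ => rfl⟩
    | step _ ih => exact ⟨ih.1.trans (h1 _ _), fun a ha => (h2 _ _ a (ih.1 ha)).trans (ih.2 a ha)⟩
  have hS : (⋃ n, (t n).1.1).Countable := Set.countable_iUnion (fun n => (t n).2.1)
  obtain ⟨a0, ha0⟩ : ∃ a, a ∉ ⋃ n, (t n).1.1 := by
    by_contra hcon
    push Not at hcon
    exact Set.not_countable_univ (hS.mono (fun a _ => hcon a))
  obtain ⟨r, hr⟩ := exists_clopen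
    (fun g => g a0 = (fun n => m n (t n)) ∧ ∀ n, ∀ a ∈ (t n).1.1, g a = (t n).1.2 a)
    (insert a0 (⋃ n, (t n).1.1)) (hS.insert a0) (fun g g' k k' =>
      ⟨(k a0 (Or.inl rfl)).trans k'.1, fun n a ha =>
        (k a (Or.inr (Set.mem_iUnion.mpr ⟨n, ha⟩))).trans (k'.2 n a ha)⟩)
  refine ⟨r, a0, fun n => m n (t n), ?_, fun g hg => (t 0).2.2 g (((hr g).mp hg).2 0),
    fun n g hg => h3 n (t n) g (((hr g).mp hg).2 (n + 1)), fun g hg => ((hr g).mp hg).1⟩
  refine pt_ne_bot (g := fun a => if h : ∃ n, a ∈ (t n).1.1 then (t h.choose).1.2 a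
    else fun n => m n (t n)) ((hr _).mpr ⟨?_, fun n a ha => ?_⟩)
  · exact dif_neg (fun h => ha0 (Set.mem_iUnion.mpr h))
  · have h : ∃ n, a ∈ (t n).1.1 := ⟨n, ha⟩
    refine (dif_pos h).trans ?_
    rw [← (ht _ _ (le_max_left h.choose n)).2 a h.choose_spec, (ht _ _ (le_max_right _ n)).2 a ha]

theorem exists_dominating : ∃ (D : Name (RO Sp)) (g : Om → Name (RO Sp)), Covered ⊤ D g ∧
    ∀ U, Dominating (mem U) (mk U omegaN) (mk U D) := by
  choose lit hlit using fun (a : Om) (n i : ℕ) => exists_clopen (fun g => g a n = i) {a}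
    (Set.countable_singleton a) (fun g g' k k' => by rw [k a rfl]; exact k')
  choose y hy1 hy2 using fun (a : Om) (n : ℕ) => exists_nat_name (lit a n) (fun i j hij => by
      by_contra hne
      obtain ⟨g, hg⟩ := exists_pt hne
      exact hij (((hlit _ _ _ _).mp hg.1).symm.trans ((hlit _ _ _ _).mp hg.2))) (fun q hq => by
      obtain ⟨g, hg⟩ := exists_pt hq
      exact ⟨g a n, pt_ne_bot (g := g) ⟨hg, (hlit _ _ _ _).mpr rfl⟩⟩)
  refine ⟨Name.mk Om (fun a => seqN (y a)) (fun _ => ⊤), _, covered_mk _ _ _, fun U => ⟨?_, ?_⟩⟩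
  · exact of_mem_mk (P := fun V f => IsFn (mem V) (mk V omegaN) f) (fun f => rep_fn _ f)
      (fun a V _ => isFn_seqN V (hy1 a)) U
  intro g hg
  obtain ⟨g, rfl⟩ := mk_surj g
  refine Rep.imp_of_dense (rep_fn omegaN g) (Rep.ex (P := fun U f =>
    mem U f (mk U (Name.mk Om (fun a => seqN (y a)) (fun _ => ⊤))) ∧ ∃ m, mem U m (mk U omegaN) ∧
      ∀ n a b, mem U m n → Rel (mem U) (mk U g) n a → Rel (mem U) f n b → mem U a b ∨ a = b)
    (fun f => (Rep.mem f _).and (rep_bound _ g f))) ?_ U hg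
  intro q hq hF
  obtain ⟨C, hC⟩ := exists_values g
  obtain ⟨r, a, f, g1, g2, g3, g4⟩ := exists_generic hq (fun n m => beq (C n) (natN m)) (by
    intro n r r1 r2
    obtain ⟨m, r', s1, s2, s3⟩ := covered_omega q (C n) r r1 r2
      (fun V hV => (hF V (V.mono r2 hV)).2 _ _ (hC n V (hF V (V.mono r2 hV)).1))
    exact ⟨m, ne_bot_of_le_ne_bot s1 (le_inf s2 (le_of_ultra (fun V hV => mk_eq.mp (s3 V hV))))⟩)
  refine ⟨r, g1, g2, fun V hV => ⟨_, mem_mk_of (A := fun a => seqN (y a)) a V.top, _,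
    natN_mem_omega V 0, fun n c b _ k1 k2 => Or.inr ?_⟩⟩
  obtain ⟨c, rfl⟩ := mk_surj c
  refine (of_rel_seqN (P := fun W n b => W.s r → Rel (mem W) (mk W g) n (mk W c) → b = mk W c)
    (fun n b => (Rep.of_s r).imp ((rep_rel g n c).imp (Rep.eq b c))) ?_ V n b k2 hV k1).symm
  intro n W w1 w2
  have w3 := (hF W (W.mono g2 w1)).1
  have w4 : r ≤ lit a n (f n) := fun g' hg' => (hlit _ _ _ _).mpr (by rw [g4 g' hg'])
  rw [hy2 a n (f n) W (W.mono w4 w1), ← mk_eq.mpr (W.mono (g3 n) w1)]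
  exact w3.2.2 _ _ _ (hC n W w3) w2

variable {B : Type} [CompleteBooleanAlgebra B]

theorem kocinac_of_countable {U : Ultra B} {X T : Mod U} (hT : IsTop (mem U) X T)
    (hX : IsCountable (mem U) X) : WKocinac (mem U) (mk U omegaN) X T := by
  intro s h1 h2
  obtain ⟨X, rfl⟩ := mk_surj X
  obtain ⟨T, rfl⟩ := mk_surj T
  obtain ⟨s, rfl⟩ := mk_surj s
  obtain ⟨q, hq, hF⟩ := value ((rep_countable X).and ((rep_seq omegaN s).and (Rep.all
    (P := fun U n => ∀ C, Rel (mem U) (mk U s) n C → Cover (mem U) (mk U X) (mk U T) C)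
    (fun n => Rep.all (fun C => (rep_rel s n C).imp (rep_cover X T C)))))) ⟨hX, h1, h2⟩
  obtain ⟨x, hx⟩ := exists_cover_of_countable (fun V hV => (hF V hV).1)
  obtain ⟨C, hC⟩ := exists_values s
  choose A hA using fun n i => Rep.witness
    (P := fun U a => mem U a (mk U (C n)) ∧ mem U (mk U (x i)) a)
    (fun a => (Rep.mem a _).and (Rep.mem _ a))
  have hA' : ∀ n i (V : Ultra B), V.s q → mem V (mk V (x i)) (mk V X) →
      mem V (mk V (A n i)) (mk V (C n)) ∧ mem V (mk V (x i)) (mk V (A n i)) :=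
    fun n i V k1 k2 => hA n i V (((hF V k1).2.2 _ _ (hC n V (hF V k1).2.1)).2 _ k2)
  let W : ℕ → Name B := fun n => Name.mk (Fin n) (fun i => A n i) (fun i => bmem (x i) X)
  refine ⟨mk U (seqN W), isSeq_seqN U W, fun n D V k1 k2 => ?_, mk U X, fun _ h => h,
    fun G k1 ⟨z, k2⟩ => ⟨z, k2, hT.1 G k1 z k2⟩, fun F k1 k2 m k3 => ?_⟩
  · obtain ⟨D, rfl⟩ := mk_surj D
    refine of_rel_seqN (P := fun V n c => V.s q → Rel (mem V) (mk V s) n (mk V D) →
      Sub (mem V) c (mk V D) ∧ IsFin (mem V) (mk V omegaN) c)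
      (fun n c => (Rep.of_s q).imp ((rep_rel s n D).imp ((rep_sub c D).and (rep_fin _ c)))) ?_
      U n V k2 hq k1
    intro n V v1 v2
    refine ⟨fun z hz => ?_, forces_fin (covered_mk ⊤ _ _) V V.top⟩
    rw [(hF V v1).2.1.2.2 _ _ _ v2 (hC n V (hF V v1).2.1)]
    exact of_mem_mk (ι := Fin n) (P := fun V z => V.s q → mem V z (mk V (C n)))
      (fun z => (Rep.of_s q).imp (Rep.mem z _)) (fun i V' t1 t2 => (hA' n i V' t2 t1).1) V z hz v1
  · obtain ⟨F, rfl⟩ := mk_surj F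
    obtain ⟨m, rfl⟩ := mk_surj m
    refine Rep.imp_of_dense ((Rep.of_s q).and ((rep_sub F X).and ((rep_fin omegaN F).and
      (Rep.mem m omegaN)))) (Rep.ex (P := fun U n => mem U n (mk U omegaN) ∧ mem U (mk U m) n ∧
        ∀ z, mem U z (mk U F) → InSel (mem U) (mk U (seqN W)) n z)
      (fun n => (Rep.mem n _).and ((Rep.mem m n).and (Rep.all (fun z =>
        (Rep.mem z F).imp (rep_insel _ n z)))))) ?_ U ⟨hq, k1, k2, k3⟩
    intro p hp hP
    have hpq : p ≤ q := le_of_ultra (fun V hV => (hP V hV).1)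
    obtain ⟨m0, r0, g1, g2, g3⟩ := covered_omega p m p hp le_rfl (fun V hV => (hP V hV).2.2.2)
    obtain ⟨r, s1, s2, S, s3⟩ := finite_cover g1
      ((hx.mono (g2.trans hpq)).subset (fun V hV => (hP V (V.mono g2 hV)).2.1))
      (fun V hV => (hP V (V.mono g2 hV)).2.2.1)
    refine ⟨r, s1, s2.trans g2, fun V hV => ⟨mk V (natN (m0 + S.sup id + 1)), natN_mem_omega V _,
      ?_, ?_⟩⟩
    · rw [g3 V (V.mono s2 hV)]
      exact natN_mem V (by omega)
    · refine covered_elim s3 (P := fun V z => InSel (mem V) (mk V (seqN W))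
        (mk V (natN (m0 + S.sup id + 1))) z) (fun z => rep_insel _ _ z) ?_ V hV
      intro i V' t1 t2
      have t3 := hP V' (V'.mono (s2.trans g2) t1)
      have t4 : (i : ℕ) ≤ S.sup id := Finset.le_sup (f := id) i.2
      exact ⟨_, _, rel_seqN V' W _, mem_mk_of (A := fun j : Fin (m0 + S.sup id + 1) => A _ j)
        ⟨i, by omega⟩ (t3.2.1 _ t2), (hA' _ i V' t3.1 (t3.2.1 _ t2)).2⟩

theorem holds_kocinac (U : Ultra (RO Sp)) : Holds (mem U) (WKocinac (mem U)) := by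
  intro w X T h1 h2 _ h4
  obtain rfl := h1.eq
  refine kocinac_of_countable h2 ?_
  obtain ⟨D, g, k1, k2⟩ := exists_dominating
  obtain ⟨X, rfl⟩ := mk_surj X
  by_contra hcon
  obtain ⟨q, hq, hF⟩ := value (rep_countable X).not hcon
  obtain ⟨x, x1, x2⟩ := exists_seq_of_uncountable hF
  exact (h4 _ (k2 U)).2 (forces_cardLE (k1.mono le_top) x1 x2 U hq)

theorem exists_hold : ∃ (M : Type 1) (E : M → M → Prop), IsZFC E ∧ Holds E (WKocinac E) ∧
    Holds E (WSakai E) ∧ Holds E (WMenger E) := by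
  obtain ⟨U, -⟩ := exists_ultra (pt_ne_bot (g := fun _ _ => 0) (b := ⊤) trivial)
  have h := holds_kocinac U
  have h' : Holds (mem U) (WSakai (mem U)) := fun w X T h1 h2 h3 h4 => by
    have := h w X T h1 h2 h3 h4
    obtain rfl := h1.eq
    exact sakai_of_kocinac this
  refine ⟨Mod U, mem U, mod_isZFC U, h, h', fun w X T h1 h2 h3 h4 => ?_⟩
  have := h' w X T h1 h2 h3 h4
  obtain rfl := h1.eq
  exact menger_of_sakai this

end Pool.Agent.P.MP_ed8104_gt.I
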